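import Mathlib

/-!
Independence number, robust connectivity and the decomposition of a graph into
highly connected pieces.
-/

open Finset

namespace Pool.Agent.Work.MP_a7fe73_co

variable {V : Type*} [DecidableEq V]

/-- `S` is a set of pairwise non-adjacent vertices of `G`. -/
def Ind (G : SimpleGraph V) (S : Finset V) : Prop :=
  ∀ u ∈ S, ∀ v ∈ S, ¬ G.Adj u v

open Classical in
/-- The independence number of `G` inside `U`. -/
noncomputable def al (G : SimpleGraph V) (U : Finset V) : ℕ :=
  (U.powerset.filter (Ind G)).sup Finset.card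

theorem le_al {G : SimpleGraph V} {S U : Finset V} (h : S ⊆ U) (hS : Ind G S) :
    S.card ≤ al G U := by
  classical
  unfold al
  exact Finset.le_sup (f := Finset.card) (by simp [h, hS])

theorem exists_al (G : SimpleGraph V) (U : Finset V) :
    ∃ S ⊆ U, Ind G S ∧ S.card = al G U := by
  classical
  have hne : (U.powerset.filter (Ind G)).Nonempty :=
    ⟨∅, by simp [Ind]⟩
  obtain ⟨S, hS, h⟩ := Finset.exists_mem_eq_sup _ hne Finset.card
  rw [mem_filter, mem_powerset] at hS
  exact ⟨S, hS.1, hS.2, h.symm⟩

theorem al_le {G : SimpleGraph V} {U : Finset V} {a : ℕ}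
    (h : ∀ S, S ⊆ U → Ind G S → S.card ≤ a) : al G U ≤ a := by
  obtain ⟨S, h1, h2, h3⟩ := exists_al G U
  rw [← h3]
  exact h S h1 h2

theorem al_mono {G : SimpleGraph V} {U W : Finset V} (h : U ⊆ W) : al G U ≤ al G W :=
  al_le fun _ hS hI => le_al (hS.trans h) hI

theorem al_pos {G : SimpleGraph V} {U : Finset V} (h : U.Nonempty) : 1 ≤ al G U := by
  obtain ⟨v, hv⟩ := h
  have : Ind G {v} := by
    intro a ha b hb
    rw [mem_singleton] at ha hb
    subst ha; subst hb
    exact G.loopless.irrefl _
  simpa using le_al (singleton_subset_iff.mpr hv) this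

theorem al_empty (G : SimpleGraph V) : al G ∅ = 0 := by
  obtain ⟨S, h1, _, h3⟩ := exists_al G (∅ : Finset V)
  rw [← h3, subset_empty.mp h1, card_empty]

theorem al_add {G : SimpleGraph V} {U A B : Finset V} (hA : A ⊆ U) (hB : B ⊆ U)
    (hd : Disjoint A B) (h : ∀ a ∈ A, ∀ b ∈ B, ¬ G.Adj a b) : al G A + al G B ≤ al G U := by
  classical
  obtain ⟨S, hS, hSI, hSc⟩ := exists_al G A
  obtain ⟨T, hT, hTI, hTc⟩ := exists_al G B
  rw [← hSc, ← hTc, ← card_union_of_disjoint (disjoint_of_subset_left hS
    (disjoint_of_subset_right hT hd))]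
  apply le_al (union_subset (hS.trans hA) (hT.trans hB))
  intro u hu v hv
  rcases mem_union.mp hu with hu | hu <;> rcases mem_union.mp hv with hv | hv
  · exact hSI u hu v hv
  · exact h u (hS hu) v (hT hv)
  · intro hadj
    exact h v (hS hv) u (hT hu) hadj.symm
  · exact hTI u hu v hv

/-- Removing fewer than `t` vertices never separates `U` (inside `G`). -/
def Conn (G : SimpleGraph V) (U : Finset V) (t : ℕ) : Prop :=
  ∀ A B : Finset V, A ⊆ U → B ⊆ U → Disjoint A B → A.Nonempty → B.Nonempty →
    (U \ (A ∪ B)).card < t → ∃ a ∈ A, ∃ b ∈ B, G.Adj a b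

theorem Conn.mono {G : SimpleGraph V} {U : Finset V} {s t : ℕ} (h : Conn G U t) (hst : s ≤ t) :
    Conn G U s := fun A B hA hB hd hA' hB' hc => h A B hA hB hd hA' hB' (hc.trans_le hst)

theorem Conn.sdiff {G : SimpleGraph V} {U W : Finset V} {s t : ℕ} (h : Conn G U t)
    (hst : s + W.card ≤ t) : Conn G (U \ W) s := by
  intro A B hA hB hd hA' hB' hc
  refine h A B (hA.trans sdiff_subset) (hB.trans sdiff_subset) hd hA' hB' ?_
  have h1 : U \ (A ∪ B) ⊆ ((U \ W) \ (A ∪ B)) ∪ W := by
    intro v hv
    simp only [mem_sdiff, mem_union] at hv ⊢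
    tauto
  have h2 := card_le_card h1
  have h3 := card_union_le ((U \ W) \ (A ∪ B)) W
  omega

/-- Decomposition of `U` into a small set and few highly connected pieces. -/
theorem decomp (G : SimpleGraph V) (t : ℕ) : ∀ (n : ℕ) (U : Finset V), U.card = n →
    ∃ (S : Finset V) (parts : List (Finset V)), S ⊆ U ∧
      (∀ W ∈ parts, W ⊆ U ∧ Conn G W t ∧ t < W.card ∧ Disjoint W S) ∧
      parts.Pairwise Disjoint ∧
      (∀ v ∈ U, v ∈ S ∨ ∃ W ∈ parts, v ∈ W) ∧
      parts.length ≤ al G U ∧ S.card ≤ (2 * al G U - 1) * t := by
  intro n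
  induction n using Nat.strong_induction_on with
  | _ n ih =>
    intro U hU
    by_cases hsmall : U.card ≤ t
    · refine ⟨U, [], Subset.refl U, by simp, List.Pairwise.nil, fun v hv => Or.inl hv,
        by simp, ?_⟩
      rcases U.eq_empty_or_nonempty with h0 | h0
      · simp [h0]
      · have h1 := al_pos (G := G) h0
        calc U.card ≤ 1 * t := by omega
          _ ≤ _ := Nat.mul_le_mul_right t (by omega)
    · push Not at hsmall
      by_cases hconn : Conn G U t
      · refine ⟨∅, [U], empty_subset U, ?_, by simp, ?_, ?_, by simp⟩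
        · intro W hW
          rw [List.mem_singleton] at hW
          subst hW
          exact ⟨Subset.refl _, hconn, hsmall, disjoint_empty_right _⟩
        · intro v hv
          exact Or.inr ⟨U, by simp, hv⟩
        · have : U.Nonempty := card_pos.mp (by omega)
          simpa using al_pos this
      · unfold Conn at hconn
        push Not at hconn
        obtain ⟨A, B, hA, hB, hd, hAne, hBne, hc, hno⟩ := hconn
        have hcA : 0 < A.card := card_pos.mpr hAne
        have hcB : 0 < B.card := card_pos.mpr hBne
        have hcAB : A.card + B.card ≤ U.card := by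
          rw [← card_union_of_disjoint hd]
          exact card_le_card (union_subset hA hB)
        obtain ⟨S₁, P₁, hS₁, hP₁, hPd₁, hcov₁, hlen₁, hcard₁⟩ := ih A.card (by omega) A rfl
        obtain ⟨S₂, P₂, hS₂, hP₂, hPd₂, hcov₂, hlen₂, hcard₂⟩ := ih B.card (by omega) B rfl
        have hal := al_add hA hB hd hno
        refine ⟨(U \ (A ∪ B)) ∪ (S₁ ∪ S₂), P₁ ++ P₂, ?_, ?_, ?_, ?_, ?_, ?_⟩
        · exact union_subset sdiff_subset (union_subset (hS₁.trans hA) (hS₂.trans hB))
        · intro W hW
          rcases List.mem_append.mp hW with hW | hW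
          · obtain ⟨h1, h2, h3, h4⟩ := hP₁ W hW
            refine ⟨h1.trans hA, h2, h3, ?_⟩
            rw [disjoint_union_right, disjoint_union_right]
            refine ⟨?_, h4, ?_⟩
            · rw [Finset.disjoint_left]
              intro v hv hv'
              have := h1 hv
              simp only [mem_sdiff, mem_union] at hv'
              tauto
            · exact disjoint_of_subset_left h1 (disjoint_of_subset_right hS₂ hd)
          · obtain ⟨h1, h2, h3, h4⟩ := hP₂ W hW
            refine ⟨h1.trans hB, h2, h3, ?_⟩
            rw [disjoint_union_right, disjoint_union_right]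
            refine ⟨?_, ?_, h4⟩
            · rw [Finset.disjoint_left]
              intro v hv hv'
              have := h1 hv
              simp only [mem_sdiff, mem_union] at hv'
              tauto
            · exact disjoint_of_subset_left h1 (disjoint_of_subset_right hS₁ hd.symm)
        · rw [List.pairwise_append]
          refine ⟨hPd₁, hPd₂, fun W hW W' hW' => ?_⟩
          exact disjoint_of_subset_left (hP₁ W hW).1 (disjoint_of_subset_right (hP₂ W' hW').1 hd)
        · intro v hv
          by_cases hvA : v ∈ A
          · rcases hcov₁ v hvA with h | ⟨W, hW, h⟩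
            · exact Or.inl (by simp [h])
            · exact Or.inr ⟨W, List.mem_append_left _ hW, h⟩
          · by_cases hvB : v ∈ B
            · rcases hcov₂ v hvB with h | ⟨W, hW, h⟩
              · exact Or.inl (by simp [h])
              · exact Or.inr ⟨W, List.mem_append_right _ hW, h⟩
            · exact Or.inl (by simp [hv, hvA, hvB])
        · rw [List.length_append]
          omega
        · have h1 := card_union_le (U \ (A ∪ B)) (S₁ ∪ S₂)
          have h2 := card_union_le S₁ S₂
          have hA1 := al_pos (G := G) hAne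
          have hB1 := al_pos (G := G) hBne
          calc ((U \ (A ∪ B)) ∪ (S₁ ∪ S₂)).card
              ≤ t + ((2 * al G A - 1) * t + (2 * al G B - 1) * t) := by omega
            _ = (1 + (2 * al G A - 1) + (2 * al G B - 1)) * t := by ring
            _ ≤ _ := Nat.mul_le_mul_right t (by omega)

/-- A set is covered by at most `al G S` disjoint paths. -/
theorem path_cover (G : SimpleGraph V) (S : Finset V) :
    ∃ Ps : List (List V), (∀ P ∈ Ps, P ≠ [] ∧ P.IsChain G.Adj) ∧ Ps.flatten.Nodup ∧
      (∀ v, v ∈ Ps.flatten ↔ v ∈ S) ∧ Ps.length ≤ al G S := by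
  classical
  have hex : ∃ n, ∃ Ps : List (List V), (∀ P ∈ Ps, P ≠ [] ∧ P.IsChain G.Adj) ∧
      Ps.flatten.Nodup ∧ (∀ v, v ∈ Ps.flatten ↔ v ∈ S) ∧ Ps.length = n := by
    refine ⟨_, S.toList.map (fun v => [v]), ?_, ?_, ?_, rfl⟩
    · intro P hP
      rw [List.mem_map] at hP
      obtain ⟨v, _, rfl⟩ := hP
      simp
    · have : (S.toList.map (fun v => [v])).flatten = S.toList := by
        induction S.toList with
        | nil => simp
        | cons a l ih => simp [ih]
      rw [this]
      exact S.nodup_toList
    · intro v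
      simp
  obtain ⟨Ps, h1, h2, h3, h4⟩ := Nat.find_spec hex
  refine ⟨Ps, h1, h2, h3, ?_⟩
  -- the heads are independent
  have hne : ∀ P ∈ Ps, P ≠ [] := fun P hP => (h1 P hP).1
  have hpair : Ps.Pairwise (fun P Q => ∀ (hP : P ≠ []) (hQ : Q ≠ []),
      ¬ G.Adj (P.head hP) (Q.head hQ) ∧ P.head hP ≠ Q.head hQ) := by
    rw [List.pairwise_iff_forall_sublist]
    intro P Q hPQ hP hQ
    have hmemP : P ∈ Ps := hPQ.subset (by simp)
    have hmemQ : Q ∈ Ps := hPQ.subset (by simp)
    have hflat : (P ++ Q).Sublist Ps.flatten := by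
      have := hPQ.flatten
      simpa using this
    have hnd : (P ++ Q).Nodup := h2.sublist hflat
    constructor
    · intro hadj
      -- merge the two paths
      obtain ⟨Rs, hperm⟩ := hPQ.exists_perm_append
      have hperm' : Ps.flatten.Perm ((P.reverse ++ Q) ++ Rs.flatten) := by
        have h5 := hperm.flatten
        simp only [List.cons_append, List.nil_append, List.flatten_cons] at h5
        refine h5.trans ?_
        rw [← List.append_assoc]
        exact ((List.reverse_perm P).symm.append_right Q).append_right _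
      have hlen : Ps.length = 2 + Rs.length := by
        have h6 := hperm.length_eq
        simp only [List.length_append, List.length_cons, List.length_nil] at h6
        omega
      refine Nat.find_min hex (m := 1 + Rs.length) (by omega)
        ⟨(P.reverse ++ Q) :: Rs, ?_, ?_, ?_, by simp [Nat.add_comm]⟩
      · intro R hR
        rcases List.mem_cons.mp hR with rfl | hR
        · refine ⟨by simp [hQ], ?_⟩
          rw [List.isChain_append, List.isChain_reverse]
          refine ⟨(h1 P hmemP).2.imp (fun a b h => h.symm), (h1 Q hmemQ).2, ?_⟩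
          intro x hx y hy
          rw [List.getLast?_reverse, List.head?_eq_some_head hP] at hx
          rw [List.head?_eq_some_head hQ] at hy
          simp only [Option.mem_def, Option.some.injEq] at hx hy
          rw [← hx, ← hy]
          exact hadj
        · exact h1 R (hperm.mem_iff.mpr (by simp [hR]))
      · rw [List.flatten_cons]
        exact hperm'.nodup_iff.mp h2
      · intro v
        rw [List.flatten_cons, ← h3 v]
        exact hperm'.mem_iff.symm
    · intro heq
      rw [List.nodup_append] at hnd
      exact hnd.2.2 _ (List.head_mem hP) _ (List.head_mem hQ) heq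
  set H : List V := Ps.pmap (fun P h => P.head h) hne with hH
  have hHp : H.Pairwise (fun a b => ¬ G.Adj a b ∧ a ≠ b) := by
    rw [hH, List.pairwise_pmap]
    exact hpair.imp (fun h hP hQ => h hP hQ)
  have hHlen : H.length = Ps.length := by rw [hH, List.length_pmap]
  have hHnd : H.Nodup := hHp.imp (fun h => h.2)
  have hHS : H.toFinset ⊆ S := by
    intro v hv
    rw [List.mem_toFinset, hH, List.mem_pmap] at hv
    obtain ⟨P, hP, rfl⟩ := hv
    rw [← h3, List.mem_flatten]
    exact ⟨P, hP, List.head_mem _⟩
  rw [← hHlen, ← List.toFinset_card_of_nodup hHnd]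
  refine le_al hHS ?_
  intro u hu v hv
  rw [List.mem_toFinset] at hu hv
  by_cases huv : u = v
  · subst huv
    exact G.loopless.irrefl _
  · haveI : Std.Symm (fun a b => ¬ G.Adj a b ∧ a ≠ b) :=
      ⟨fun a b h => ⟨fun h' => h.1 h'.symm, h.2.symm⟩⟩
    exact (hHp.forall hu hv huv).1

end Pool.Agent.Work.MP_a7fe73_co
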