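import Pool.Agent.Work.MP_a7fe73_co.Legs

/-!
The main construction: highly connected digraphs with small oriented stability number
have a Hamilton circuit.
-/

open Finset

namespace Pool.Agent.Work.MP_a7fe73_co

variable {V : Type*} [DecidableEq V] [Fintype V]

/-- A closed spanning path, as a list. -/
theorem closed_list {D : Digraph V} {a k : ℕ} (ha : 1 ≤ a)
    (hcard : k + 1 ≤ Fintype.card V)
    (hst : ∀ X : Finset V, X.card < k → ∀ u v : V, u ∉ X → v ∉ X →
      Relation.ReflTransGen (fun a b => a ∉ X ∧ b ∉ X ∧ D.Adj a b) u v)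
    (hal : al (digon D) univ ≤ a) (hk : 8 * a ^ 3 ≤ k) :
    ∃ (L : List V) (z : V), (L ++ [z]).IsChain D.Adj ∧ L.head? = some z ∧ L.Nodup ∧
      ∀ v, v ∈ L := by
  classical
  set G := digon D with hG
  set t : ℕ := 2 * a * (2 * a - 2) + a + 1 with ht
  obtain ⟨S, parts, -, hparts, hpd, hcov, hplen, hScard⟩ := decomp G t _ univ rfl
  obtain ⟨Ps, hPs, hPnd, hPcov, hPlen⟩ := path_cover G S
  -- numbers
  have hp : parts.length ≤ a := hplen.trans hal
  have hq : Ps.length ≤ a := hPlen.trans ((al_mono (subset_univ S)).trans hal)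
  have hS : S.card ≤ (2 * a - 1) * t := hScard.trans (Nat.mul_le_mul_right t (by omega))
  obtain ⟨b, rfl⟩ : ∃ b, a = b + 1 := ⟨a - 1, by omega⟩
  have e1 : 2 * (b + 1) - 2 = 2 * b := by omega
  have e2 : 2 * (b + 1) - 1 = 2 * b + 1 := by omega
  rw [e1] at ht
  rw [e2] at hS
  have htb : t = 4 * b ^ 2 + 5 * b + 2 := by rw [ht]; ring
  have hpartne : parts ≠ [] := by
    rintro rfl
    have h1 : (univ : Finset V) ⊆ S := by
      intro v hv
      rcases hcov v hv with h | ⟨W, hW, _⟩
      · exact h
      · simp at hW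
    have h2 := card_le_card h1
    rw [card_univ] at h2
    rw [htb] at hS
    nlinarith
  -- choose two vertices in every part
  have hcardpart : ∀ W ∈ parts, 1 < W.card := by
    intro W hW
    have := (hparts W hW).2.2.1
    omega
  obtain ⟨v₀⟩ : Nonempty V := Fintype.card_pos_iff.mp (by omega)
  haveI : Nonempty V := ⟨v₀⟩
  have hch : ∀ W : Finset V, ∃ x y : V, 1 < W.card → x ∈ W ∧ y ∈ W ∧ x ≠ y := by
    intro W
    by_cases h : 1 < W.card
    · obtain ⟨x, hx, y, hy, hxy⟩ := Finset.one_lt_card.mp h
      exact ⟨x, y, fun _ => ⟨hx, hy, hxy⟩⟩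
    · exact ⟨v₀, v₀, fun h' => absurd h' h⟩
  choose xf yf hxy using hch
  have hch2 : ∀ P : List V, ∃ s : V × V, P ≠ [] → P.head? = some s.1 ∧ P.getLast? = some s.2 := by
    intro P
    by_cases h : P = []
    · exact ⟨(v₀, v₀), fun h' => absurd h h'⟩
    · exact ⟨(P.head h, P.getLast h), fun _ => ⟨List.head?_eq_some_head h,
        List.getLast?_eq_some_getLast h⟩⟩
  choose sq hsq using hch2
  set sp : Finset V → V × V := fun W => (xf W, yf W) with hsp
  set ss : List (V × V) := parts.map sp ++ Ps.map sq with hss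
  have hslen : ss.length ≤ 2 * (b + 1) := by
    rw [hss, List.length_append, List.length_map, List.length_map]
    omega
  -- the reserved set
  set R : Finset V := S ∪ ((parts.map xf).toFinset ∪ (parts.map yf).toFinset) with hR
  have hRcard : R.card ≤ (2 * b + 1) * t + 2 * (b + 1) := by
    have h1 := card_union_le S ((parts.map xf).toFinset ∪ (parts.map yf).toFinset)
    have h2 := card_union_le (parts.map xf).toFinset (parts.map yf).toFinset
    have h3 := List.toFinset_card_le (parts.map xf)
    have h4 := List.toFinset_card_le (parts.map yf)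
    rw [List.length_map] at h3 h4
    rw [hR]
    omega
  have hssR : ∀ s ∈ ss, s.1 ∈ R ∧ s.2 ∈ R := by
    intro s hs
    rw [hss, List.mem_append, List.mem_map, List.mem_map] at hs
    rcases hs with ⟨W, hW, rfl⟩ | ⟨P, hP, rfl⟩
    · constructor
      · rw [hR, mem_union, mem_union, List.mem_toFinset]
        exact Or.inr (Or.inl (List.mem_map_of_mem hW))
      · rw [hR, mem_union, mem_union, List.mem_toFinset, List.mem_toFinset]
        exact Or.inr (Or.inr (List.mem_map_of_mem hW))
    · obtain ⟨h1, h2⟩ := hsq P (hPs P hP).1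
      have h3 : ∀ v ∈ P, v ∈ R := by
        intro v hv
        rw [hR, mem_union]
        exact Or.inl ((hPcov v).mp (List.mem_flatten.mpr ⟨P, hP, hv⟩))
      exact ⟨h3 _ (List.mem_of_head? h1), h3 _ (List.mem_of_getLast? h2)⟩
  obtain ⟨W₀, parts', hW₀⟩ : ∃ W₀ parts', parts = W₀ :: parts' := List.exists_cons_of_ne_nil hpartne
  set z : V := xf W₀ with hz
  have hzR : z ∈ R := (hssR (sp W₀) (by rw [hss, hW₀]; simp)).1
  -- distinctness
  have hdis : ss.Pairwise (fun s s' => s.2 ≠ s'.1 ∧ s'.2 ≠ s.1) := by
    rw [hss, List.pairwise_append, List.pairwise_map, List.pairwise_map]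
    refine ⟨?_, ?_, ?_⟩
    · have h1 : parts.Pairwise (fun W W' => Disjoint W W' ∧ W ∈ parts ∧ W' ∈ parts) := by
        have := hpd
        rw [List.pairwise_iff_forall_sublist] at this ⊢
        intro W W' h
        exact ⟨this h, h.subset (by simp), h.subset (by simp)⟩
      refine h1.imp ?_
      rintro W W' ⟨hd, hW, hW'⟩
      obtain ⟨h2, h3, _⟩ := hxy W (hcardpart W hW)
      obtain ⟨h4, h5, _⟩ := hxy W' (hcardpart W' hW')
      constructor
      · intro h
        exact Finset.disjoint_left.mp hd h3 (by
          change yf W = xf W' at h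
          rw [h]; exact h4)
      · intro h
        exact Finset.disjoint_left.mp hd h2 (by
          change yf W' = xf W at h
          rw [← h]; exact h5)
    · rw [List.nodup_flatten] at hPnd
      have h1 : Ps.Pairwise (fun P P' => List.Disjoint P P' ∧ P ∈ Ps ∧ P' ∈ Ps) := by
        have := hPnd.2
        rw [List.pairwise_iff_forall_sublist] at this ⊢
        intro W W' h
        exact ⟨this h, h.subset (by simp), h.subset (by simp)⟩
      refine h1.imp ?_
      rintro P P' ⟨hd, hP, hP'⟩
      obtain ⟨h2, h3⟩ := hsq P (hPs P hP).1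
      obtain ⟨h4, h5⟩ := hsq P' (hPs P' hP').1
      constructor
      · intro h
        exact hd (List.mem_of_getLast? h3) (by rw [h]; exact List.mem_of_head? h4)
      · intro h
        exact hd (List.mem_of_head? h2) (by rw [← h]; exact List.mem_of_getLast? h5)
    · intro s hs s' hs'
      rw [List.mem_map] at hs hs'
      obtain ⟨W, hW, rfl⟩ := hs
      obtain ⟨P, hP, rfl⟩ := hs'
      obtain ⟨h2, h3, _⟩ := hxy W (hcardpart W hW)
      obtain ⟨h4, h5⟩ := hsq P (hPs P hP).1
      have h6 : ∀ v ∈ P, v ∈ S := fun v hv =>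
        (hPcov v).mp (List.mem_flatten.mpr ⟨P, hP, hv⟩)
      have h7 := (hparts W hW).2.2.2
      constructor
      · intro h
        exact Finset.disjoint_left.mp h7 h3 (by
          change yf W = _ at h
          rw [h]; exact h6 _ (List.mem_of_head? h4))
      · intro h
        exact Finset.disjoint_left.mp h7 h2 (by
          change _ = xf W at h
          rw [← h]; exact h6 _ (List.mem_of_getLast? h5))
  have hlast : ∀ s ∈ ss, s.2 ≠ z := by
    rw [hss, hW₀] at hdis
    rw [hss, hW₀]
    simp only [List.map_cons, List.cons_append, List.pairwise_cons] at hdis ⊢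
    intro s hs
    rcases List.mem_cons.mp hs with rfl | hs
    · have := (hxy W₀ (hcardpart W₀ (by rw [hW₀]; simp))).2.2
      exact this.symm
    · exact (hdis.1 s hs).2
  -- the connections
  obtain ⟨Is, hI1, hI2, hI3, hI4⟩ := legs hst hal R (links ss z) (by
      intro p hp
      exact ⟨links_ne ss z (hdis.imp fun h => h.1) hlast p hp,
        links_mem (R := fun v => v ∈ R) ss z hssR hzR p hp⟩) (by
      rw [links_length, e1]
      have h1 : ss.length * (2 * b) ≤ (2 * (b + 1)) * (2 * b) := Nat.mul_le_mul_right _ hslen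
      rw [htb] at hRcard
      nlinarith)
  rw [links_length, e1] at hI4
  set Wset : Finset V := Is.flatten.toFinset with hWset
  have hWcard : Wset.card ≤ 2 * (b + 1) * (2 * b) := by
    rw [hWset, List.toFinset_card_of_nodup hI2]
    exact hI4.trans (Nat.mul_le_mul_right _ hslen)
  -- the spanning paths of the parts
  have hF : ∀ W : Finset V, ∃ F : List V, W ∈ parts →
      IsPathFT G.Adj (xf W) (yf W) F ∧ ∀ v, v ∈ F ↔ v ∈ W \ Wset := by
    intro W
    by_cases hW : W ∈ parts
    · obtain ⟨h2, h3, h4⟩ := hxy W (hcardpart W hW)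
      have h5 := hssR (sp W) (by rw [hss]; exact List.mem_append_left _ (List.mem_map_of_mem hW))
      have h6 : ∀ v ∈ R, v ∉ Wset := by
        intro v hv hv'
        rw [hWset, List.mem_toFinset] at hv'
        exact hI3 v hv' hv
      obtain ⟨F, hF1, hF2⟩ := ham_connected (G := G) (U := W \ Wset) (a := b + 1)
        ((al_mono (subset_univ _)).trans hal)
        ((hparts W hW).2.1.sdiff (by omega)) (x := xf W) (y := yf W)
        (mem_sdiff.mpr ⟨h2, h6 _ h5.1⟩) (mem_sdiff.mpr ⟨h3, h6 _ h5.2⟩) h4
      exact ⟨F, fun _ => ⟨hF1, hF2⟩⟩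
    · exact ⟨[], fun h => absurd h hW⟩
  choose FW hFW using hF
  set Fs : List (List V) := parts.map FW ++ Ps with hFs
  have hGD : ∀ l : List V, l.IsChain G.Adj → l.IsChain D.Adj := by
    intro l hl
    exact hl.imp (fun a b h => h.2.1)
  have hforall : List.Forall₂ (fun (s : V × V) F => IsPathFT D.Adj s.1 s.2 F) ss Fs := by
    rw [hss, hFs]
    refine List.rel_append ?_ ?_
    · rw [List.forall₂_map_left_iff, List.forall₂_map_right_iff, List.forall₂_same]
      intro W hW
      obtain ⟨h1, _⟩ := hFW W hW
      exact ⟨hGD _ h1.chain, h1.head, h1.last, h1.nodup⟩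
    · rw [List.forall₂_map_left_iff, List.forall₂_same]
      intro P hP
      obtain ⟨h1, h2⟩ := hsq P (hPs P hP).1
      rw [List.nodup_flatten] at hPnd
      exact ⟨hGD _ (hPs P hP).2, h1, h2, hPnd.1 P hP⟩
  obtain ⟨hc1, hc2⟩ := weave_chain ss Fs Is z hforall hI1 (by rw [hss, hW₀]; simp)
  have hperm := weave_perm Fs Is (by
    rw [← hforall.length_eq, ← links_length ss z, hI1.length_eq])
  have hpart_mem : ∀ W ∈ parts, ∀ v ∈ FW W, v ∈ W ∧ v ∉ Wset := by
    intro W hW v hv
    exact mem_sdiff.mp (((hFW W hW).2 v).mp hv)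
  refine ⟨weave Fs Is, z, hc1, ?_, ?_, ?_⟩
  · rw [hc2, hss, hW₀]
    simp [hsp, hz]
  · rw [hperm.nodup_iff, List.nodup_append]
    refine ⟨?_, hI2, ?_⟩
    · rw [hFs, List.flatten_append, List.nodup_append]
      refine ⟨?_, hPnd, ?_⟩
      · rw [List.nodup_flatten]
        constructor
        · intro F hF
          rw [List.mem_map] at hF
          obtain ⟨W, hW, rfl⟩ := hF
          exact (hFW W hW).1.nodup
        · rw [List.pairwise_map]
          have h1 : parts.Pairwise (fun W W' => Disjoint W W' ∧ W ∈ parts ∧ W' ∈ parts) := by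
            have := hpd
            rw [List.pairwise_iff_forall_sublist] at this ⊢
            intro W W' h
            exact ⟨this h, h.subset (by simp), h.subset (by simp)⟩
          refine h1.imp ?_
          rintro W W' ⟨hd, hW, hW'⟩ v hv hv'
          exact Finset.disjoint_left.mp hd (hpart_mem W hW v hv).1 (hpart_mem W' hW' v hv').1
      · intro x hx y hy hxy'
        subst hxy'
        rw [List.mem_flatten] at hx
        obtain ⟨F, hF, hx⟩ := hx
        rw [List.mem_map] at hF
        obtain ⟨W, hW, rfl⟩ := hF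
        exact Finset.disjoint_left.mp (hparts W hW).2.2.2 (hpart_mem W hW x hx).1
          ((hPcov x).mp hy)
    · intro x hx y hy hxy'
      subst hxy'
      rw [hFs, List.flatten_append, List.mem_append] at hx
      rcases hx with hx | hx
      · rw [List.mem_flatten] at hx
        obtain ⟨F, hF, hx⟩ := hx
        rw [List.mem_map] at hF
        obtain ⟨W, hW, rfl⟩ := hF
        apply (hpart_mem W hW x hx).2
        rw [hWset, List.mem_toFinset]
        exact hy
      · apply hI3 x hy
        rw [hR, mem_union]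
        exact Or.inl ((hPcov x).mp hx)
  · intro v
    rw [hperm.mem_iff, List.mem_append, hFs, List.flatten_append, List.mem_append]
    by_cases hvW : v ∈ Is.flatten
    · exact Or.inr hvW
    · left
      rcases hcov v (mem_univ v) with h | ⟨W, hW, h⟩
      · exact Or.inr ((hPcov v).mpr h)
      · left
        rw [List.mem_flatten]
        refine ⟨FW W, List.mem_map_of_mem hW, ((hFW W hW).2 v).mpr ?_⟩
        rw [mem_sdiff, hWset, List.mem_toFinset]
        exact ⟨h, hvW⟩

end Pool.Agent.Work.MP_a7fe73_co
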