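import Pool.Agent.Work.MP_a7fe73_co.Paths

/-!
Adding a universal vertex; rooted and unrooted versions of the Chvatal-Erdos theorem.
-/

open Finset

namespace Pool.Agent.Work.MP_a7fe73_co

variable {V : Type*} [DecidableEq V]

omit [DecidableEq V] in
/-- The graph `G` with a new vertex `none` adjacent to all other vertices. -/
def cone (G : SimpleGraph V) : SimpleGraph (Option V) where
  Adj u v := u ≠ v ∧ ∀ x ∈ u, ∀ y ∈ v, G.Adj x y
  symm := ⟨fun _ _ h => ⟨h.1.symm, fun x hx y hy => (h.2 y hy x hx).symm⟩⟩
  loopless := ⟨fun _ h => h.1 rfl⟩

omit [DecidableEq V] in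
theorem cone_adj_some {G : SimpleGraph V} {u v : V} :
    (cone G).Adj (some u) (some v) ↔ G.Adj u v := by
  constructor
  · intro h
    exact h.2 u rfl v rfl
  · intro h
    refine ⟨fun h' => ?_, ?_⟩
    · rw [Option.some.injEq] at h'
      subst h'
      exact G.loopless.irrefl _ h
    · intro x hx y hy
      simp only [Option.mem_def, Option.some.injEq] at hx hy
      rw [← hx, ← hy]
      exact h

omit [DecidableEq V] in
theorem cone_adj_none {G : SimpleGraph V} {v : V} : (cone G).Adj none (some v) :=
  ⟨by simp, by simp⟩

/-- The set `U` together with the new vertex. -/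
def coneSet (U : Finset V) : Finset (Option V) := insertNone U

theorem al_cone {G : SimpleGraph V} {U : Finset V} {a : ℕ} (ha : 1 ≤ a) (h : al G U ≤ a) :
    al (cone G) (coneSet U) ≤ a := by
  classical
  refine al_le fun S hS hI => ?_
  by_cases hn : none ∈ S
  · have : S = {none} := by
      rw [eq_singleton_iff_unique_mem]
      refine ⟨hn, fun x hx => ?_⟩
      cases x with
      | none => rfl
      | some v => exact absurd cone_adj_none (hI none hn (some v) hx)
    rw [this, card_singleton]
    exact ha
  · have h1 : S = (eraseNone S).map Function.Embedding.some := by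
      ext x
      simp only [mem_map, mem_eraseNone, Function.Embedding.some_apply]
      constructor
      · intro hx
        cases x with
        | none => exact absurd hx hn
        | some v => exact ⟨v, hx, rfl⟩
      · rintro ⟨v, hv, rfl⟩
        exact hv
    rw [h1, card_map]
    refine (le_al ?_ ?_).trans h
    · intro v hv
      rw [mem_eraseNone] at hv
      have := hS hv
      simpa [coneSet] using this
    · intro u hu v hv hadj
      rw [mem_eraseNone] at hu hv
      exact hI _ hu _ hv (cone_adj_some.mpr hadj)

theorem conn_cone {G : SimpleGraph V} {U : Finset V} {t : ℕ} (h : Conn G U t) :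
    Conn (cone G) (coneSet U) (t + 1) := by
  classical
  intro A B hA hB hd hAne hBne hc
  by_cases hnA : none ∈ A
  · obtain ⟨b, hb⟩ := hBne
    cases b with
    | none => exact absurd hb (Finset.disjoint_left.mp hd hnA)
    | some v => exact ⟨none, hnA, some v, hb, cone_adj_none⟩
  · by_cases hnB : none ∈ B
    · obtain ⟨b, hb⟩ := hAne
      cases b with
      | none => exact absurd hb hnA
      | some v => exact ⟨some v, hb, none, hnB, cone_adj_none.symm⟩
    · have key : ∀ S : Finset (Option V), none ∉ S → S = (eraseNone S).map
          Function.Embedding.some := by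
        intro S hn
        ext x
        simp only [mem_map, mem_eraseNone, Function.Embedding.some_apply]
        constructor
        · intro hx
          cases x with
          | none => exact absurd hx hn
          | some v => exact ⟨v, hx, rfl⟩
        · rintro ⟨v, hv, rfl⟩
          exact hv
      have hsub : ∀ S : Finset (Option V), S ⊆ coneSet U → eraseNone S ⊆ U := by
        intro S hS v hv
        rw [mem_eraseNone] at hv
        simpa [coneSet] using hS hv
      obtain ⟨a, ha, b, hb, hab⟩ := h (eraseNone A) (eraseNone B) (hsub A hA) (hsub B hB) (by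
          rw [Finset.disjoint_left]
          intro v hv hv'
          rw [mem_eraseNone] at hv hv'
          exact Finset.disjoint_left.mp hd hv hv') (by
          obtain ⟨x, hx⟩ := hAne
          cases x with
          | none => exact absurd hx hnA
          | some v => exact ⟨v, mem_eraseNone.mpr hx⟩) (by
          obtain ⟨x, hx⟩ := hBne
          cases x with
          | none => exact absurd hx hnB
          | some v => exact ⟨v, mem_eraseNone.mpr hx⟩) (by
          have h2 : insert none ((U \ (eraseNone A ∪ eraseNone B)).map Function.Embedding.some)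
              ⊆ coneSet U \ (A ∪ B) := by
            intro x hx
            rw [mem_insert, mem_map] at hx
            rcases hx with rfl | ⟨v, hv, rfl⟩
            · rw [mem_sdiff, mem_union]
              exact ⟨by simp [coneSet], by tauto⟩
            · rw [mem_sdiff, mem_union, mem_eraseNone, mem_eraseNone] at hv
              rw [mem_sdiff, mem_union]
              exact ⟨by simpa [coneSet] using hv.1, hv.2⟩
          have h3 := card_le_card h2
          rw [card_insert_of_notMem (by simp), card_map] at h3
          omega)
      rw [mem_eraseNone] at ha hb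
      exact ⟨some a, ha, some b, hb, cone_adj_some.mpr hab⟩

omit [DecidableEq V] in
theorem exists_map_some : ∀ l : List (Option V), none ∉ l → ∃ m : List V, l = m.map some
  | [], _ => ⟨[], rfl⟩
  | none :: l, h => absurd (by simp) h
  | some v :: l, h => by
    obtain ⟨m, rfl⟩ := exists_map_some l (fun h' => h (List.mem_cons_of_mem _ h'))
    exact ⟨v :: m, rfl⟩

/-- Rooted version of the Chvatal-Erdos theorem. -/
theorem ham_rooted {G : SimpleGraph V} {U : Finset V} {a : ℕ} (ha : 1 ≤ a) (hal : al G U ≤ a)
    (hc : Conn G U a) {y : V} (hy : y ∈ U) :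
    ∃ x l, IsPathFT G.Adj x y l ∧ ∀ v, v ∈ l ↔ v ∈ U := by
  obtain ⟨l, hl, hmem⟩ := ham_connected (al_cone ha hal) (conn_cone hc) (x := none)
    (y := some y) (by simp [coneSet]) (by simpa [coneSet] using hy) (by simp)
  rcases l with _ | ⟨b, l⟩
  · exact absurd rfl hl.ne_nil
  · have h1 := hl.head
    simp only [List.head?_cons, Option.some.injEq] at h1
    subst h1
    obtain ⟨m, rfl⟩ := exists_map_some l (List.nodup_cons.mp hl.nodup).1
    have hne : m ≠ [] := by
      rintro rfl
      have := hl.last
      simp at this
    obtain ⟨c, m, rfl⟩ := List.exists_cons_of_ne_nil hne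
    refine ⟨c, c :: m, ⟨?_, rfl, ?_, ?_⟩, ?_⟩
    · have h2 := hl.chain.tail
      rw [List.tail_cons, List.isChain_map] at h2
      exact h2.imp (fun a b h => cone_adj_some.mp h)
    · have h2 := hl.last
      rw [List.getLast?_cons_of_ne_nil (by simp), List.getLast?_map] at h2
      simpa using h2
    · exact (List.nodup_cons.mp hl.nodup).2.of_map
    · intro v
      have h2 := hmem (some v)
      rw [List.mem_cons, List.mem_map] at h2
      simp only [reduceCtorEq, Option.some.injEq, exists_eq_right, false_or] at h2
      rw [h2]
      simp [coneSet]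

/-- Unrooted version of the Chvatal-Erdos theorem. -/
theorem ham_path {G : SimpleGraph V} {U : Finset V} {a : ℕ} (hal : al G U ≤ a + 1)
    (hc : Conn G U a) (hU : U.Nonempty) :
    ∃ x y l, IsPathFT G.Adj x y l ∧ ∀ v, v ∈ l ↔ v ∈ U := by
  obtain ⟨x, l, hl, hmem⟩ := ham_rooted (G := cone G) (U := coneSet U) (a := a + 1) (by omega)
    (al_cone (by omega) hal) (conn_cone hc) (y := none) (by simp [coneSet])
  rcases List.eq_nil_or_concat l with rfl | ⟨m, c, rfl⟩
  · exact absurd rfl hl.ne_nil
  · rw [List.concat_eq_append] at hl hmem
    have h1 := hl.last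
    rw [List.getLast?_append_of_ne_nil _ (by simp)] at h1
    simp only [List.getLast?_singleton, Option.some.injEq] at h1
    subst h1
    have hnd := hl.nodup
    rw [List.nodup_append] at hnd
    obtain ⟨m, rfl⟩ := exists_map_some m (fun h => hnd.2.2 _ h _ (by simp) rfl)
    have hmem' : ∀ v, v ∈ m ↔ v ∈ U := by
      intro v
      have h2 := hmem (some v)
      rw [List.mem_append, List.mem_map] at h2
      simp only [Option.some.injEq, exists_eq_right, List.mem_singleton, reduceCtorEq,
        or_false] at h2
      rw [h2]
      simp [coneSet]
    have hne : m ≠ [] := by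
      rintro rfl
      obtain ⟨v, hv⟩ := hU
      simpa using (hmem' v).mpr hv
    refine ⟨m.head hne, m.getLast hne, m, ⟨?_, List.head?_eq_some_head hne,
      List.getLast?_eq_some_getLast hne, hnd.1.of_map⟩, hmem'⟩
    have h2 := hl.chain.left_of_append
    rw [List.isChain_map] at h2
    exact h2.imp (fun a b h => cone_adj_some.mp h)

end Pool.Agent.Work.MP_a7fe73_co
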