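import Pool.Agent.Work.MP_a7fe73_co.KappaTwo

/-!
Every 2-strong digraph with oriented stability number at most `a`, where `a ≥ 3`, is covered by
`a - 2` disjoint paths.
-/

open Finset

namespace Pool.Agent.Work.MP_a7fe73_co

universe u

/-- `U` is covered by at most `m` disjoint paths. -/
def Cov {V : Type u} (R : V → V → Prop) (U : Finset V) (m : ℕ) : Prop :=
  ∃ Ps : List (List V), Ps.length ≤ m ∧ (∀ P ∈ Ps, P.IsChain R) ∧ Ps.flatten.Nodup ∧
    ∀ v, v ∈ Ps.flatten ↔ v ∈ U

section basic

variable {V : Type u} {R S : V → V → Prop} {U W : Finset V} {m k : ℕ}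

theorem Cov.le (h : Cov R U m) (hm : m ≤ k) : Cov R U k := by
  obtain ⟨Ps, h1, h2⟩ := h
  exact ⟨Ps, h1.trans hm, h2⟩

theorem Cov.imp (h : Cov R U m) (hRS : ∀ a b, R a b → S a b) : Cov S U m := by
  obtain ⟨Ps, h1, h2, h3⟩ := h
  exact ⟨Ps, h1, fun P hP => (h2 P hP).imp hRS, h3⟩

theorem IsPathFT.cov {x y : V} {l : List V} (h : IsPathFT R x y l) (hm : ∀ v, v ∈ l ↔ v ∈ U) :
    Cov R U 1 := by
  refine ⟨[l], by simp, ?_, ?_, ?_⟩
  · intro P hP
    rw [List.mem_singleton] at hP
    rw [hP]
    exact h.chain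
  · simpa using h.nodup
  · intro v
    simpa using hm v

variable [DecidableEq V]

theorem Cov.union (h : Cov R U m) (h' : Cov R W k) (hd : Disjoint U W) :
    Cov R (U ∪ W) (m + k) := by
  obtain ⟨Ps, h1, h2, h3, h4⟩ := h
  obtain ⟨Qs, g1, g2, g3, g4⟩ := h'
  refine ⟨Ps ++ Qs, by rw [List.length_append]; omega, ?_, ?_, ?_⟩
  · intro P hP
    rcases List.mem_append.mp hP with hP | hP
    · exact h2 P hP
    · exact g2 P hP
  · rw [List.flatten_append, List.nodup_append]
    refine ⟨h3, g3, ?_⟩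
    intro a ha b hb hab
    subst hab
    exact Finset.disjoint_left.mp hd ((h4 a).mp ha) ((g4 a).mp hb)
  · intro v
    rw [List.flatten_append, List.mem_append, mem_union, h4, g4]

theorem Cov.sum (P : Finset (Finset V)) (f : Finset V → ℕ)
    (hd : ∀ A ∈ P, ∀ B ∈ P, A ≠ B → Disjoint A B) (h : ∀ A ∈ P, Cov R A (f A)) :
    Cov R (P.biUnion id) (∑ A ∈ P, f A) := by
  induction P using Finset.induction with
  | empty => exact ⟨[], by simp, by simp, by simp, by simp⟩
  | insert A P hA ih =>
    rw [biUnion_insert, sum_insert hA]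
    refine (h A (mem_insert_self _ _)).union (ih (fun B hB C hC => hd B (mem_insert_of_mem hB) C
      (mem_insert_of_mem hC)) (fun B hB => h B (mem_insert_of_mem hB))) ?_
    rw [disjoint_biUnion_right]
    intro B hB
    exact hd A (mem_insert_self _ _) B (mem_insert_of_mem hB) (by rintro rfl; exact hA hB)

end basic

section cone

variable {V : Type u}

theorem exists_map_map_some : ∀ L : List (List (Option V)), (∀ l ∈ L, none ∉ l) →
    ∃ M : List (List V), L = M.map (List.map some)
  | [], _ => ⟨[], rfl⟩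
  | l :: L, h => by
    obtain ⟨M, rfl⟩ := exists_map_map_some L (fun l' hl' => h l' (List.mem_cons_of_mem _ hl'))
    obtain ⟨m, rfl⟩ := exists_map_some l (h l (by simp))
    exact ⟨m :: M, rfl⟩

variable [DecidableEq V]

theorem Cov.uncone {G : SimpleGraph V} {U : Finset V} {m : ℕ}
    (h : Cov (cone G).Adj (coneSet U) m) : Cov G.Adj U (m + 1) := by
  obtain ⟨Ps, h1, h2, h3, h4⟩ := h
  have hn : none ∈ Ps.flatten := (h4 none).mpr (by simp [coneSet])
  obtain ⟨P, hP, hnP⟩ := List.mem_flatten.mp hn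
  obtain ⟨L₁, L₂, rfl⟩ := List.append_of_mem hP
  obtain ⟨P₁, P₂, rfl⟩ := List.append_of_mem hnP
  have hperm : (L₁ ++ (P₁ ++ none :: P₂) :: L₂).flatten.Perm
      (none :: (L₁ ++ P₁ :: P₂ :: L₂).flatten) := by
    simp only [List.flatten_append, List.flatten_cons, List.append_assoc, List.cons_append]
    have e1 : L₁.flatten ++ (P₁ ++ none :: (P₂ ++ L₂.flatten)) =
        (L₁.flatten ++ P₁) ++ none :: (P₂ ++ L₂.flatten) := by simp
    have e2 : none :: (L₁.flatten ++ (P₁ ++ (P₂ ++ L₂.flatten))) =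
        none :: ((L₁.flatten ++ P₁) ++ (P₂ ++ L₂.flatten)) := by simp
    rw [e1, e2]
    exact List.perm_middle
  have hnd := hperm.nodup_iff.mp h3
  rw [List.nodup_cons] at hnd
  obtain ⟨M, hM⟩ := exists_map_map_some (L₁ ++ P₁ :: P₂ :: L₂) (fun l hl hn' =>
    hnd.1 (List.mem_flatten.mpr ⟨l, hl, hn'⟩))
  have hfl : (L₁ ++ P₁ :: P₂ :: L₂).flatten = M.flatten.map some := by
    rw [hM, List.map_flatten]
  refine ⟨M, ?_, ?_, ?_, ?_⟩
  · have := congrArg List.length hM
    rw [List.length_map] at this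
    simp only [List.length_append, List.length_cons] at this h1
    omega
  · intro Q hQ
    have hQ' : Q.map some ∈ L₁ ++ P₁ :: P₂ :: L₂ := by
      rw [hM]
      exact List.mem_map_of_mem hQ
    have hch : (Q.map some).IsChain (cone G).Adj := by
      rcases List.mem_append.mp hQ' with h' | h'
      · exact h2 _ (List.mem_append_left _ h')
      · rcases List.mem_cons.mp h' with h' | h'
        · have := h2 (P₁ ++ none :: P₂) (by simp)
          rw [h']
          exact this.left_of_append
        · rcases List.mem_cons.mp h' with h' | h'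
          · have := h2 (P₁ ++ none :: P₂) (by simp)
            rw [h']
            exact this.right_of_append.tail
          · exact h2 _ (List.mem_append_right _ (List.mem_cons_of_mem _ h'))
    rw [List.isChain_map] at hch
    exact hch.imp (fun a b h => cone_adj_some.mp h)
  · have := hnd.2
    rw [hfl] at this
    exact this.of_map
  · intro v
    have h5 := h4 (some v)
    rw [hperm.mem_iff, List.mem_cons, hfl, List.mem_map] at h5
    simp only [reduceCtorEq, Option.some.injEq, exists_eq_right, false_or] at h5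
    rw [h5]
    simp [coneSet]

end cone

/-- Path cover version of the Chvatal-Erdos theorem. -/
theorem ham_cov : ∀ (j : ℕ) {V : Type u} [DecidableEq V] {G : SimpleGraph V} {U : Finset V}
    {a : ℕ}, al G U ≤ a + 1 + j → Conn G U a → U.Nonempty → Cov G.Adj U (j + 1) := by
  intro j
  induction j with
  | zero =>
    intro V _ G U a hal hc hU
    obtain ⟨x, y, l, hl, hm⟩ := ham_path hal hc hU
    exact hl.cov hm
  | succ j ih =>
    intro V _ G U a hal hc hU
    refine Cov.uncone (ih (a := a + 1) ?_ (conn_cone hc) ⟨none, by simp [coneSet]⟩)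
    exact al_cone (by omega) (by omega)

section parts

variable {V : Type u} [DecidableEq V]

/-- Decomposition of a graph into 2-connected pieces. -/
theorem parts_two (G : SimpleGraph V) : ∀ (n : ℕ) (U : Finset V), U.card = n → U.Nonempty →
    ∃ P : Finset (Finset V), (∀ W ∈ P, W.Nonempty ∧ Conn G W 2) ∧
      (∀ A ∈ P, ∀ B ∈ P, A ≠ B → Disjoint A B) ∧ P.biUnion id = U ∧
      ∑ W ∈ P, al G W ≤ al G U := by
  intro n
  induction n using Nat.strong_induction_on with
  | _ n ih =>
    intro U hU hne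
    by_cases hc : Conn G U 2
    · refine ⟨{U}, ?_, ?_, by simp, by simp⟩
      · intro W hW
        rw [mem_singleton] at hW
        subst hW
        exact ⟨hne, hc⟩
      · intro A hA B hB hAB
        rw [mem_singleton] at hA hB
        exact absurd (hA.trans hB.symm) hAB
    · obtain ⟨A, B, hA, hB, hd, hun, hs⟩ := split_of_not_conn hc
      have hcA := card_pos.mpr hA
      have hcB := card_pos.mpr hB
      have hcAB : A.card + B.card = U.card := by
        rw [← card_union_of_disjoint hd, hun]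
      obtain ⟨P, h1, h2, h3, h4⟩ := ih A.card (by omega) A rfl hA
      obtain ⟨Q, g1, g2, g3, g4⟩ := ih B.card (by omega) B rfl hB
      have hPA : ∀ X ∈ P, X ⊆ A := fun X hX => by
        rw [← h3]
        exact subset_biUnion_of_mem id hX
      have hQB : ∀ X ∈ Q, X ⊆ B := fun X hX => by
        rw [← g3]
        exact subset_biUnion_of_mem id hX
      have hPQ : ∀ X ∈ P, ∀ Y ∈ Q, Disjoint X Y := fun X hX Y hY =>
        disjoint_of_subset_left (hPA X hX) (disjoint_of_subset_right (hQB Y hY) hd)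
      have hdPQ : Disjoint P Q := by
        rw [Finset.disjoint_left]
        intro X hX hX'
        have h5 := hPQ X hX X hX'
        rw [disjoint_self_iff_empty] at h5
        have := (h1 X hX).1
        rw [h5] at this
        exact not_nonempty_empty this
      refine ⟨P ∪ Q, ?_, ?_, ?_, ?_⟩
      · intro W hW
        rcases mem_union.mp hW with hW | hW
        · exact h1 W hW
        · exact g1 W hW
      · intro X hX Y hY hXY
        rcases mem_union.mp hX with hX | hX <;> rcases mem_union.mp hY with hY | hY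
        · exact h2 X hX Y hY hXY
        · exact hPQ X hX Y hY
        · exact (hPQ Y hY X hX).symm
        · exact g2 X hX Y hY hXY
      · rw [union_biUnion, h3, g3, hun]
      · rw [sum_union hdPQ]
        omega

/-- Every vertex of `W` is the start and the end of Hamilton paths of `W`. -/
def Rooted (D : Digraph V) (W : Finset V) : Prop :=
  ∀ y ∈ W, (∃ z l, IsPathFT D.Adj y z l ∧ ∀ v, v ∈ l ↔ v ∈ W) ∧
    ∃ z l, IsPathFT D.Adj z y l ∧ ∀ v, v ∈ l ↔ v ∈ W

theorem Rooted.cov {D : Digraph V} {W : Finset V} (h : Rooted D W) (hW : W.Nonempty) :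
    Cov D.Adj W 1 := by
  obtain ⟨y, hy⟩ := hW
  obtain ⟨z, l, hl, hm⟩ := (h y hy).1
  exact hl.cov hm

theorem rooted_of_conn {D : Digraph V} {W : Finset V} (hc : Conn (digon D) W 2)
    (hal : al (digon D) W ≤ 2) : Rooted D W := by
  intro y hy
  obtain ⟨c, l, hl, hm⟩ := ham_rooted (by norm_num) hal hc hy
  have hl' := hl.reverse (fun _ _ h => h.symm)
  refine ⟨⟨c, l.reverse, ⟨hl'.chain.imp (fun _ _ h => h.2.1), hl'.head, hl'.last, hl'.nodup⟩,
    fun v => by rw [List.mem_reverse, hm]⟩, ⟨c, l, ⟨hl.chain.imp (fun _ _ h => h.2.1), hl.head,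
    hl.last, hl.nodup⟩, hm⟩⟩

theorem merge {D : Digraph V} {A B : Finset V} (hA : Rooted D A) (hB : Rooted D B)
    (hd : Disjoint A B) {a b : V} (ha : a ∈ A) (hb : b ∈ B) (hab : D.Adj a b) :
    Cov D.Adj (A ∪ B) 1 := by
  obtain ⟨_, l₁, p₁, m₁⟩ := (hA a ha).2
  obtain ⟨_, l₂, p₂, m₂⟩ := (hB b hb).1
  refine (p₁.append p₂ hab (fun v hv hv' =>
    Finset.disjoint_left.mp hd ((m₁ v).mp hv) ((m₂ v).mp hv'))).cov (fun v => ?_)
  rw [List.mem_append, m₁, m₂, mem_union]

theorem merge₃ {D : Digraph V} {A B C : Finset V} (hA : Rooted D A) (hB : Clq D B)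
    (hC : Rooted D C) (hAB : Disjoint A B) (hBC : Disjoint B C) (hAC : Disjoint A C)
    {a b b' c : V} (ha : a ∈ A) (hb : b ∈ B) (hb' : b' ∈ B) (hc : c ∈ C) (hab : D.Adj a b)
    (hbc : D.Adj b' c) (hne : b ≠ b') : Cov D.Adj (A ∪ (B ∪ C)) 1 := by
  obtain ⟨_, l₁, p₁, m₁⟩ := (hA a ha).2
  obtain ⟨l₂, p₂, m₂⟩ := hB.path_between hb hb' hne
  obtain ⟨_, l₃, p₃, m₃⟩ := (hC c hc).1
  have q := p₂.append p₃ hbc (fun v hv hv' =>
    Finset.disjoint_left.mp hBC ((m₂ v).mp hv) ((m₃ v).mp hv'))
  refine (p₁.append q hab (fun v hv hv' => ?_)).cov (fun v => ?_)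
  · rcases List.mem_append.mp hv' with hv' | hv'
    · exact Finset.disjoint_left.mp hAB ((m₁ v).mp hv) ((m₂ v).mp hv')
    · exact Finset.disjoint_left.mp hAC ((m₁ v).mp hv) ((m₃ v).mp hv')
  · rw [List.mem_append, List.mem_append, m₁, m₂, m₃, mem_union, mem_union]

/-- A partition into rooted pieces, some of which have been merged. -/
theorem cov_rest {D : Digraph V} {U : Finset V} {P S : Finset (Finset V)} {m : ℕ}
    (hP : ∀ W ∈ P, W.Nonempty ∧ Rooted D W) (hd : ∀ A ∈ P, ∀ B ∈ P, A ≠ B → Disjoint A B)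
    (hU : P.biUnion id = U) (hS : S ⊆ P) (h : Cov D.Adj (S.biUnion id) m) :
    Cov D.Adj U (m + (P.card - S.card)) := by
  have h1 : Cov D.Adj ((P \ S).biUnion id) (∑ A ∈ P \ S, 1) :=
    Cov.sum (P \ S) (fun _ => 1) (fun A hA B hB => hd A (sdiff_subset hA) B (sdiff_subset hB))
      (fun A hA => (hP A (sdiff_subset hA)).2.cov (hP A (sdiff_subset hA)).1)
  rw [sum_const, smul_eq_mul, mul_one, card_sdiff_of_subset hS] at h1
  have h2 := h.union h1 (by
    rw [disjoint_biUnion_left]
    intro A hA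
    rw [disjoint_biUnion_right]
    intro B hB
    rw [mem_sdiff] at hB
    exact hd A (hS hA) B hB.1 (by rintro rfl; exact hB.2 hA))
  rw [← union_biUnion, union_sdiff_of_subset hS, hU] at h2
  exact h2

theorem one_merge {D : Digraph V} {U : Finset V} {P : Finset (Finset V)}
    (hP : ∀ W ∈ P, W.Nonempty ∧ Rooted D W) (hd : ∀ A ∈ P, ∀ B ∈ P, A ≠ B → Disjoint A B)
    (hU : P.biUnion id = U) {A B : Finset V} (hA : A ∈ P) (hB : B ∈ P) (hAB : A ≠ B)
    {a b : V} (ha : a ∈ A) (hb : b ∈ B) (hab : D.Adj a b) : Cov D.Adj U (P.card - 1) := by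
  have h1 := merge (hP A hA).2 (hP B hB).2 (hd A hA B hB hAB) ha hb hab
  have hS : ({A, B} : Finset (Finset V)) ⊆ P := by
    intro X hX
    rw [mem_insert, mem_singleton] at hX
    rcases hX with rfl | rfl <;> assumption
  have h2 := cov_rest (S := {A, B}) (m := 1) hP hd hU hS (by
    rw [biUnion_insert, singleton_biUnion]
    exact h1)
  have h3 := card_le_card hS
  rw [card_pair hAB] at h2 h3
  exact h2.le (by omega)

theorem two_merges {D : Digraph V} {U : Finset V} {P : Finset (Finset V)}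
    (hP : ∀ W ∈ P, W.Nonempty ∧ Rooted D W) (hd : ∀ A ∈ P, ∀ B ∈ P, A ≠ B → Disjoint A B)
    (hU : P.biUnion id = U) {A B C E : Finset V} (hA : A ∈ P) (hB : B ∈ P) (hC : C ∈ P)
    (hE : E ∈ P) (hAB : A ≠ B) (hAC : A ≠ C) (hAE : A ≠ E) (hBC : B ≠ C) (hBE : B ≠ E)
    (hCE : C ≠ E) {a b c e : V} (ha : a ∈ A) (hb : b ∈ B) (hc : c ∈ C) (he : e ∈ E)
    (hab : D.Adj a b) (hce : D.Adj c e) : Cov D.Adj U (P.card - 2) := by
  have h1 := merge (hP A hA).2 (hP B hB).2 (hd A hA B hB hAB) ha hb hab
  have h2 := merge (hP C hC).2 (hP E hE).2 (hd C hC E hE hCE) hc he hce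
  have h3 := h1.union h2 (by
    rw [disjoint_union_left, disjoint_union_right, disjoint_union_right]
    exact ⟨⟨hd A hA C hC hAC, hd A hA E hE hAE⟩, hd B hB C hC hBC, hd B hB E hE hBE⟩)
  have hS : ({A, B, C, E} : Finset (Finset V)) ⊆ P := by
    intro X hX
    simp only [mem_insert, mem_singleton] at hX
    rcases hX with rfl | rfl | rfl | rfl <;> assumption
  have h4 := cov_rest (S := {A, B, C, E}) (m := 1 + 1) hP hd hU hS (by
    rw [biUnion_insert, biUnion_insert, biUnion_insert, singleton_biUnion]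
    rw [union_assoc] at h3
    exact h3)
  have h5 := card_le_card hS
  have h6 : ({A, B, C, E} : Finset (Finset V)).card = 4 := by
    rw [card_insert_of_notMem, card_insert_of_notMem, card_insert_of_notMem, card_singleton]
    · simpa using hCE
    · simp [hBC, hBE]
    · simp [hAB, hAC, hAE]
  rw [h6] at h4 h5
  exact h4.le (by omega)

theorem triple_merge {D : Digraph V} {U : Finset V} {P : Finset (Finset V)}
    (hP : ∀ W ∈ P, W.Nonempty ∧ Rooted D W) (hd : ∀ A ∈ P, ∀ B ∈ P, A ≠ B → Disjoint A B)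
    (hU : P.biUnion id = U) {A B C : Finset V} (hA : A ∈ P) (hB : B ∈ P) (hC : C ∈ P)
    (hAB : A ≠ B) (hAC : A ≠ C) (hBC : B ≠ C) (hBc : Clq D B)
    {a b b' c : V} (ha : a ∈ A) (hb : b ∈ B) (hb' : b' ∈ B) (hc : c ∈ C)
    (hab : D.Adj a b) (hbc : D.Adj b' c) (hne : b ≠ b') : Cov D.Adj U (P.card - 2) := by
  have h1 := merge₃ (hP A hA).2 hBc (hP C hC).2 (hd A hA B hB hAB) (hd B hB C hC hBC)
    (hd A hA C hC hAC) ha hb hb' hc hab hbc hne
  have hS : ({A, B, C} : Finset (Finset V)) ⊆ P := by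
    intro X hX
    simp only [mem_insert, mem_singleton] at hX
    rcases hX with rfl | rfl | rfl <;> assumption
  have h4 := cov_rest (S := {A, B, C}) (m := 1) hP hd hU hS (by
    rw [biUnion_insert, biUnion_insert, singleton_biUnion]
    exact h1)
  have h5 := card_le_card hS
  have h6 : ({A, B, C} : Finset (Finset V)).card = 3 := by
    rw [card_insert_of_notMem, card_insert_of_notMem, card_singleton]
    · simpa using hBC
    · simp [hAB, hAC]
  rw [h6] at h4 h5
  exact h4.le (by omega)

/-- At least four digon-cliques. -/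
theorem many_cliques [Fintype V] {D : Digraph V}
    (hst : ∀ X : Finset V, X.card < 2 → ∀ u v : V, u ∉ X → v ∉ X →
      Relation.ReflTransGen (fun a b => a ∉ X ∧ b ∉ X ∧ D.Adj a b) u v)
    {P : Finset (Finset V)} (hP : ∀ W ∈ P, W.Nonempty ∧ Rooted D W)
    (hcl : ∀ W ∈ P, Clq D W)
    (hd : ∀ A ∈ P, ∀ B ∈ P, A ≠ B → Disjoint A B) (hU : P.biUnion id = univ)
    (hcard : 4 ≤ P.card) : Cov D.Adj univ (P.card - 2) := by
  have hpart : ∀ v : V, ∃ A ∈ P, v ∈ A := by
    intro v
    have : v ∈ P.biUnion id := by rw [hU]; exact mem_univ v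
    rw [mem_biUnion] at this
    exact this
  have huniq : ∀ {A B : Finset V}, A ∈ P → B ∈ P → ∀ {v : V}, v ∈ A → v ∈ B → A = B := by
    intro A B hA hB v hv hv'
    by_contra hAB
    exact Finset.disjoint_left.mp (hd A hA B hB hAB) hv hv'
  have hsdiff : ∀ S : Finset (Finset V), S.card ≤ 3 → ∃ W ∈ P, W ∉ S := by
    intro S hS
    by_contra hcon
    push Not at hcon
    have := card_le_card (show P ⊆ S from hcon)
    omega
  obtain ⟨X, hX, -⟩ := hsdiff ∅ (by simp)
  obtain ⟨Z', hZ', hZX'⟩ := hsdiff {X} (by simp)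
  rw [mem_singleton] at hZX'
  -- an arc from X to Y
  obtain ⟨x₀, hx₀⟩ := (hP X hX).1
  obtain ⟨z₀, hz₀⟩ := (hP Z' hZ').1
  obtain ⟨x, hx, y, hyX, -, -, hxy⟩ := cut_arc hst (T := ∅) (A := X) (by simp)
    (a := x₀) (b := z₀) hx₀ (by simp) (fun h => hZX' (huniq hZ' hX hz₀ h)) (by simp)
  obtain ⟨Y, hY, hyY⟩ := hpart y
  have hXY : X ≠ Y := by rintro rfl; exact hyX hyY
  obtain ⟨Z, hZ, hZn⟩ := hsdiff {X, Y} (card_le_two.trans (by norm_num))
  obtain ⟨W, hW, hWn⟩ := hsdiff {X, Y, Z} card_le_three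
  simp only [mem_insert, mem_singleton, not_or] at hZn hWn
  obtain ⟨hZX, hZY⟩ := hZn
  obtain ⟨hWX, hWY, hWZ⟩ := hWn
  change Z ≠ X at hZX
  change Z ≠ Y at hZY
  change W ≠ X at hWX
  change W ≠ Y at hWY
  change W ≠ Z at hWZ
  -- an arc into W
  obtain ⟨w₀, hw₀⟩ := (hP W hW).1
  obtain ⟨q, hq, w, hw, -, -, hqw⟩ := cut_arc hst (T := ∅) (A := univ \ W) (by simp)
    (a := x₀) (b := w₀) (by simpa using fun h => hWX (huniq hW hX h hx₀)) (by simp)
    (by simpa using hw₀) (by simp)
  have hqW : q ∉ W := by simpa using hq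
  have hwW : w ∈ W := by simpa using hw
  obtain ⟨Q, hQ, hqQ⟩ := hpart q
  have hQW : Q ≠ W := by rintro rfl; exact hqW hqQ
  by_cases hQXY : Q = X ∨ Q = Y
  · have hQZ : Q ≠ Z := by
      rcases hQXY with h | h
      · rw [h]; exact hZX.symm
      · rw [h]; exact hZY.symm
    -- an arc out of Z avoiding q
    obtain ⟨c₀, hc₀⟩ := (hP Z hZ).1
    obtain ⟨c, hc, p, hpZ, -, hpq, hcp⟩ := cut_arc hst (T := {q}) (A := Z) (by simp)
      (a := c₀) (b := w) hc₀ (by rw [mem_singleton]; rintro rfl; exact hQZ (huniq hQ hZ hqQ hc₀))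
      (fun h => hWZ (huniq hW hZ hwW h))
      (by rw [mem_singleton]; rintro rfl; exact hqW hwW)
    rw [mem_singleton] at hpq
    obtain ⟨R, hR, hpR⟩ := hpart p
    have hRZ : R ≠ Z := by rintro rfl; exact hpZ hpR
    by_cases hRXY : R = X ∨ R = Y
    · by_cases hRQ : R = Q
      · subst hRQ
        exact triple_merge hP hd hU hZ hR hW hRZ.symm hWZ.symm hQW (hcl R hR) hc hpR hqQ hwW
          hcp hqw hpq
      · refine two_merges hP hd hU hZ hR hQ hW hRZ.symm hQZ.symm hWZ.symm hRQ ?_ hQW hc hpR hqQ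
          hwW hcp hqw
        rcases hRXY with h | h
        · rw [h]; exact hWX.symm
        · rw [h]; exact hWY.symm
    · push Not at hRXY
      exact two_merges hP hd hU hX hY hZ hR hXY hZX.symm hRXY.1.symm hZY.symm hRXY.2.symm
        hRZ.symm hx hyY hc hpR hxy hcp
  · push Not at hQXY
    exact two_merges hP hd hU hX hY hQ hW hXY hQXY.1.symm hWX.symm hQXY.2.symm hWY.symm hQW
      hx hyY hqQ hwW hxy hqw

/-- Every 2-strong digraph with oriented stability number at most `a`, where `3 ≤ a`, is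
covered by `a - 2` disjoint paths. -/
theorem kappa_two_cover [Fintype V] {D : Digraph V} (hV : Nonempty V)
    (hst : ∀ X : Finset V, X.card < 2 → ∀ u v : V, u ∉ X → v ∉ X →
      Relation.ReflTransGen (fun a b => a ∉ X ∧ b ∉ X ∧ D.Adj a b) u v)
    {a : ℕ} (ha : 3 ≤ a) (hal : al (digon D) univ ≤ a) : Cov D.Adj univ (a - 2) := by
  obtain ⟨P, h1, h2, h3, h4⟩ := parts_two (digon D) _ univ rfl univ_nonempty
  have hdig : ∀ a b, (digon D).Adj a b → D.Adj a b := fun _ _ h => h.2.1
  by_cases hbig : ∃ W ∈ P, 3 ≤ al (digon D) W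
  · obtain ⟨W, hW, hW3⟩ := hbig
    have h5 : Cov D.Adj W (al (digon D) W - 2) := by
      have := ham_cov (al (digon D) W - 3) (G := digon D) (U := W) (a := 2) (by omega)
        (h1 W hW).2 (h1 W hW).1
      exact (this.imp hdig).le (by omega)
    have h6 : Cov D.Adj ((P.erase W).biUnion id) (∑ X ∈ P.erase W, al (digon D) X) := by
      refine Cov.sum _ _ (fun A hA B hB => h2 A (mem_of_mem_erase hA) B (mem_of_mem_erase hB))
        (fun X _ => ?_)
      obtain ⟨Ps, g1, g2, g3, g4⟩ := path_cover (digon D) X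
      exact ⟨Ps, g4, fun Q hQ => ((g1 Q hQ).2).imp hdig, g2, g3⟩
    have h7 := h5.union h6 (by
      rw [disjoint_biUnion_right]
      intro B hB
      rw [mem_erase] at hB
      exact h2 W hW B hB.2 hB.1.symm)
    have h8 : W ∪ (P.erase W).biUnion id = univ := by
      rw [← h3]
      conv_rhs => rw [← insert_erase hW, biUnion_insert]
      rfl
    rw [h8] at h7
    have h9 := add_sum_erase P (fun X => al (digon D) X) hW
    exact h7.le (by omega)
  · push Not at hbig
    have hR : ∀ W ∈ P, W.Nonempty ∧ Rooted D W := fun W hW =>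
      ⟨(h1 W hW).1, rooted_of_conn (h1 W hW).2 (by have := hbig W hW; omega)⟩
    have h5 : P.card ≤ ∑ W ∈ P, al (digon D) W := by
      rw [card_eq_sum_ones]
      exact sum_le_sum (fun W hW => al_pos (h1 W hW).1)
    have hpart : ∀ v : V, ∃ A ∈ P, v ∈ A := by
      intro v
      have : v ∈ P.biUnion id := by rw [h3]; exact mem_univ v
      rw [mem_biUnion] at this
      exact this
    rcases Nat.lt_or_ge (P.card + 2) (a + 1) with h6 | h6
    · have h7 := cov_rest (S := ∅) (m := 0) hR h2 h3 (by simp)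
        ⟨[], by simp, by simp, by simp, by simp⟩
      exact h7.le (by simp only [card_empty]; omega)
    · rcases Nat.lt_or_ge P.card a with h7 | h7
      · -- one merge
        obtain ⟨X, hX⟩ : P.Nonempty := card_pos.mp (by omega)
        obtain ⟨Z, hZ, hZX⟩ : ∃ Z ∈ P, Z ≠ X := by
          by_contra hcon
          push Not at hcon
          have := card_le_card (show P ⊆ {X} from fun Z hZ => by simp [hcon Z hZ])
          rw [card_singleton] at this
          omega
        obtain ⟨x₀, hx₀⟩ := (h1 X hX).1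
        obtain ⟨z₀, hz₀⟩ := (h1 Z hZ).1
        obtain ⟨x, hx, y, hyX, -, -, hxy⟩ := cut_arc hst (T := ∅) (A := X) (by simp)
          (a := x₀) (b := z₀) hx₀ (by simp)
          (fun h => Finset.disjoint_left.mp (h2 Z hZ X hX hZX) hz₀ h) (by simp)
        obtain ⟨Y, hY, hyY⟩ := hpart y
        have h8 := one_merge hR h2 h3 hX hY (by rintro rfl; exact hyX hyY) hx hyY hxy
        exact h8.le (by omega)
      · -- all pieces are cliques
        have h8 : ∀ W ∈ P, al (digon D) W = 1 := by
          by_contra hcon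
          push Not at hcon
          obtain ⟨W, hW, hW1⟩ := hcon
          have h9 : P.card < ∑ W ∈ P, al (digon D) W := by
            rw [card_eq_sum_ones]
            refine sum_lt_sum (fun X hX => al_pos (h1 X hX).1) ⟨W, hW, ?_⟩
            have := al_pos (G := digon D) (h1 W hW).1
            omega
          omega
        have hcl : ∀ W ∈ P, Clq D W := fun W hW => clq_of_al (h8 W hW).le
        have hPa : P.card = a := by omega
        rcases Nat.lt_or_ge P.card 4 with h9 | h9
        · obtain ⟨X, Y, Z, hXY, hXZ, hYZ, hPe⟩ := card_eq_three.mp (show P.card = 3 by omega)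
          have hX : X ∈ P := by rw [hPe]; simp
          have hY : Y ∈ P := by rw [hPe]; simp
          have hZ : Z ∈ P := by rw [hPe]; simp
          obtain ⟨l, g1, g2, g3⟩ := Tri.ham hst (X := X) (Y := Y) (Z := Z)
            ⟨fun v => by
              obtain ⟨A, hA, hv⟩ := hpart v
              rw [hPe] at hA
              simp only [mem_insert, mem_singleton] at hA
              rcases hA with rfl | rfl | rfl <;> tauto,
            h2 X hX Y hY hXY, h2 Y hY Z hZ hYZ, h2 X hX Z hZ hXZ, hcl X hX, hcl Y hY, hcl Z hZ⟩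
            (h1 X hX).1 (h1 Y hY).1 (h1 Z hZ).1
          refine ⟨[l], by simp; omega, ?_, by simpa using g2, fun v => by simpa using g3 v⟩
          intro Q hQ
          rw [List.mem_singleton] at hQ
          rw [hQ]
          exact g1
        · have h10 := many_cliques hst hR hcl h2 h3 h9
          rw [hPa] at h10
          exact h10

end parts

end Pool.Agent.Work.MP_a7fe73_co
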