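import Pool.Agent.Work.MP_a7fe73_co.Paths

/-!
Directed connections in highly connected digraphs, and the assembly of a closed path.
-/

open Finset

namespace Pool.Agent.Work.MP_a7fe73_co

variable {V : Type*}

/-- The undirected graph of the directed 2-circuits of `D`. -/
def digon (D : Digraph V) : SimpleGraph V where
  Adj u v := u ≠ v ∧ D.Adj u v ∧ D.Adj v u
  symm := ⟨fun _ _ h => ⟨h.1.symm, h.2.2, h.2.1⟩⟩
  loopless := ⟨fun _ h => h.1 rfl⟩

/-- Every second element of a list. -/
def evens : List V → List V
  | [] => []
  | [x] => [x]
  | x :: _ :: l => x :: evens l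

theorem evens_length : ∀ l : List V, l.length ≤ 2 * (evens l).length
  | [] => by simp [evens]
  | [x] => by simp [evens]
  | x :: y :: l => by
    have := evens_length l
    simp only [evens, List.length_cons]
    omega

theorem evens_sublist : ∀ l : List V, (evens l).Sublist l
  | [] => by simp [evens]
  | [x] => by simp [evens]
  | x :: y :: l => by
    have := evens_sublist l
    simp only [evens]
    exact (this.cons y).cons_cons x

theorem evens_pairwise {R : V → V → Prop} : ∀ l : List V,
    (∀ p q r, List.Sublist [p, q, r] l → R p r) → (evens l).Pairwise R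
  | [], _ => by simp [evens]
  | [x], _ => by simp [evens]
  | x :: y :: l, h => by
    simp only [evens, List.pairwise_cons]
    refine ⟨fun r hr => h x y r ?_, evens_pairwise l fun p q r hpqr => h p q r ?_⟩
    · have : List.Sublist [r] l := List.singleton_sublist.mpr ((evens_sublist l).subset hr)
      exact (this.cons_cons y).cons_cons x
    · exact (hpqr.cons y).cons x

variable [DecidableEq V] [Fintype V]

/-- A directed connection of bounded length avoiding a small set. -/
theorem leg {D : Digraph V} {a k : ℕ}
    (hst : ∀ X : Finset V, X.card < k → ∀ u v : V, u ∉ X → v ∉ X →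
      Relation.ReflTransGen (fun a b => a ∉ X ∧ b ∉ X ∧ D.Adj a b) u v)
    (hal : al (digon D) univ ≤ a) {X : Finset V} (hX : X.card < k) {u v : V}
    (hu : u ∉ X) (hv : v ∉ X) (huv : u ≠ v) :
    ∃ I : List V, (u :: (I ++ [v])).Nodup ∧ (u :: (I ++ [v])).IsChain D.Adj ∧
      (∀ w ∈ I, w ∉ X) ∧ I.length + 2 ≤ 2 * a := by
  obtain ⟨l, hl, hlX, hshort⟩ := short_path D.Adj (fun w => w ∉ X) u v (hst X hX u v hu hv) hu
  -- shape of l
  obtain ⟨I, rfl⟩ : ∃ I, l = u :: (I ++ [v]) := by
    rcases l with _ | ⟨b, l⟩
    · exact absurd rfl hl.ne_nil
    · have h1 := hl.head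
      simp only [List.head?_cons, Option.some.injEq] at h1
      subst h1
      rcases List.eq_nil_or_concat l with rfl | ⟨I, c, rfl⟩
      · have h2 := hl.last
        simp only [List.getLast?_singleton, Option.some.injEq] at h2
        exact absurd h2 huv
      · have h2 := hl.last
        have h3 : (b :: (I ++ [c])) = (b :: I) ++ c :: [] := by simp
        rw [List.concat_eq_append, h3, getLast?_append_cons] at h2
        simp only [List.getLast?_singleton, Option.some.injEq] at h2
        subst h2
        exact ⟨I, by rw [List.concat_eq_append]⟩
  refine ⟨I, hl.nodup, hl.chain, fun w hw => hlX w (by simp [hw]), ?_⟩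
  have hnd : (evens (u :: (I ++ [v]))).Nodup := hl.nodup.sublist (evens_sublist _)
  have hpw : (evens (u :: (I ++ [v]))).Pairwise (fun p r => ¬ (digon D).Adj p r) :=
    evens_pairwise _ fun p q r hpqr h => hshort p q r hpqr h.2.1
  have hind : Ind (digon D) (evens (u :: (I ++ [v]))).toFinset := by
    intro p hp r hr
    rw [List.mem_toFinset] at hp hr
    by_cases hpr : p = r
    · subst hpr
      exact (digon D).loopless.irrefl _
    · haveI : Std.Symm (fun p r => ¬ (digon D).Adj p r) := ⟨fun _ _ h h' => h h'.symm⟩
      exact hpw.forall hp hr hpr
  have h1 := le_al (subset_univ _) hind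
  rw [List.toFinset_card_of_nodup hnd] at h1
  have h2 := evens_length (u :: (I ++ [v]))
  simp only [List.length_cons, List.length_append, List.length_nil] at h2
  omega

/-- Several directed connections, disjoint from each other and from a reserved set. -/
theorem legs {D : Digraph V} {a k : ℕ}
    (hst : ∀ X : Finset V, X.card < k → ∀ u v : V, u ∉ X → v ∉ X →
      Relation.ReflTransGen (fun a b => a ∉ X ∧ b ∉ X ∧ D.Adj a b) u v)
    (hal : al (digon D) univ ≤ a) (R : Finset V) : ∀ ps : List (V × V),
    (∀ p ∈ ps, p.1 ≠ p.2 ∧ p.1 ∈ R ∧ p.2 ∈ R) → R.card + ps.length * (2 * a - 2) ≤ k →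
    ∃ Is : List (List V),
      List.Forall₂ (fun (p : V × V) I => (p.1 :: (I ++ [p.2])).IsChain D.Adj) ps Is ∧
      Is.flatten.Nodup ∧ (∀ v ∈ Is.flatten, v ∉ R) ∧
      Is.flatten.length ≤ ps.length * (2 * a - 2) := by
  intro ps
  induction ps with
  | nil =>
    intro _ _
    exact ⟨[], List.Forall₂.nil, by simp, by simp, by simp⟩
  | cons p ps ih =>
    intro hps hk
    obtain ⟨hne, hp1, hp2⟩ := hps p List.mem_cons_self
    rw [List.length_cons] at hk
    have hmul : (ps.length + 1) * (2 * a - 2) = ps.length * (2 * a - 2) + (2 * a - 2) := by
      ring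
    rw [hmul] at hk
    obtain ⟨Is, h1, h2, h3, h4⟩ := ih (fun q hq => hps q (List.mem_cons_of_mem _ hq)) (by omega)
    set X : Finset V := (R ∪ Is.flatten.toFinset) \ {p.1, p.2} with hX
    have hXc : X.card < k := by
      have hsub : ({p.1, p.2} : Finset V) ⊆ R ∪ Is.flatten.toFinset := by
        intro z hz
        rw [mem_insert, mem_singleton] at hz
        rcases hz with rfl | rfl
        · exact mem_union_left _ hp1
        · exact mem_union_left _ hp2
      have h5 : X.card = (R ∪ Is.flatten.toFinset).card - 2 := by
        rw [hX, card_sdiff_of_subset hsub, card_pair hne]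
      have h6 := card_union_le R Is.flatten.toFinset
      rw [List.toFinset_card_of_nodup h2] at h6
      have h7 : 2 ≤ (R ∪ Is.flatten.toFinset).card := by
        rw [← card_pair hne]
        exact card_le_card hsub
      omega
    obtain ⟨I, hI1, hI2, hI3, hI4⟩ := leg hst hal hXc (u := p.1) (v := p.2)
      (by simp [hX]) (by simp [hX]) hne
    have hInew : ∀ w ∈ I, w ∉ R ∧ w ∉ Is.flatten := by
      intro w hw
      have h5 := hI3 w hw
      rw [hX, mem_sdiff, mem_union, List.mem_toFinset, mem_insert, mem_singleton] at h5
      have h6 : w ≠ p.1 := by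
        rintro rfl
        exact (List.nodup_cons.mp hI1).1 (by simp [hw])
      have h7 : w ≠ p.2 := by
        rintro rfl
        have h8 := (List.nodup_cons.mp hI1).2
        rw [List.nodup_append] at h8
        exact h8.2.2 _ hw _ (by simp) rfl
      tauto
    refine ⟨I :: Is, List.Forall₂.cons hI2 h1, ?_, ?_, ?_⟩
    · rw [List.flatten_cons, List.nodup_append]
      refine ⟨?_, h2, ?_⟩
      · have h8 := (List.nodup_cons.mp hI1).2
        rw [List.nodup_append] at h8
        exact h8.1
      · intro x hx y hy hxy
        subst hxy
        exact (hInew x hx).2 hy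
    · intro v hv
      rw [List.flatten_cons, List.mem_append] at hv
      rcases hv with hv | hv
      · exact (hInew v hv).1
      · exact h3 v hv
    · rw [List.flatten_cons, List.length_append, List.length_cons, hmul]
      omega

omit [DecidableEq V] [Fintype V]

/-- The pairs (end of a piece, start of the next one); the last piece is linked to `z`. -/
def links : List (V × V) → V → List (V × V)
  | [], _ => []
  | [s], z => [(s.2, z)]
  | s :: s' :: ss, z => (s.2, s'.1) :: links (s' :: ss) z

theorem links_length : ∀ (ss : List (V × V)) (z : V), (links ss z).length = ss.length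
  | [], _ => rfl
  | [s], z => rfl
  | s :: s' :: ss, z => by
    simp only [links, List.length_cons]
    rw [links_length (s' :: ss) z, List.length_cons]

theorem links_mem {R : V → Prop} : ∀ (ss : List (V × V)) (z : V),
    (∀ s ∈ ss, R s.1 ∧ R s.2) → R z → ∀ p ∈ links ss z, R p.1 ∧ R p.2
  | [], _, _, _, p, hp => by simp [links] at hp
  | [s], z, h, hz, p, hp => by
    simp only [links, List.mem_singleton] at hp
    subst hp
    exact ⟨(h s (by simp)).2, hz⟩
  | s :: s' :: ss, z, h, hz, p, hp => by
    simp only [links] at hp
    rcases List.mem_cons.mp hp with rfl | hp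
    · exact ⟨(h s (by simp)).2, (h s' (by simp)).1⟩
    · exact links_mem (s' :: ss) z (fun q hq => h q (List.mem_cons_of_mem _ hq)) hz p hp

theorem links_ne : ∀ (ss : List (V × V)) (z : V), ss.Pairwise (fun s s' => s.2 ≠ s'.1) →
    (∀ s ∈ ss, s.2 ≠ z) → ∀ p ∈ links ss z, p.1 ≠ p.2
  | [], _, _, _, p, hp => by simp [links] at hp
  | [s], z, _, h, p, hp => by
    simp only [links, List.mem_singleton] at hp
    subst hp
    exact h s (by simp)
  | s :: s' :: ss, z, hpw, h, p, hp => by
    simp only [links] at hp
    rcases List.mem_cons.mp hp with rfl | hp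
    · exact (List.pairwise_cons.mp hpw).1 s' (by simp)
    · exact links_ne (s' :: ss) z (List.pairwise_cons.mp hpw).2
        (fun q hq => h q (List.mem_cons_of_mem _ hq)) p hp

/-- Interleave pieces and connections. -/
def weave : List (List V) → List (List V) → List V
  | F :: Fs, I :: Is => F ++ (I ++ weave Fs Is)
  | _, _ => []

theorem weave_perm : ∀ (Fs Is : List (List V)), Fs.length = Is.length →
    (weave Fs Is).Perm (Fs.flatten ++ Is.flatten)
  | [], [], _ => by simp [weave]
  | [], _ :: _, h => by simp at h
  | _ :: _, [], h => by simp at h
  | F :: Fs, I :: Is, h => by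
    simp only [weave, List.flatten_cons]
    have ih := weave_perm Fs Is (by simpa using h)
    have h1 : (F ++ (I ++ weave Fs Is)).Perm (F ++ (I ++ (Fs.flatten ++ Is.flatten))) :=
      (ih.append_left I).append_left F
    refine h1.trans ?_
    rw [List.append_assoc]
    refine List.Perm.append_left F ?_
    rw [← List.append_assoc, ← List.append_assoc]
    exact List.perm_append_comm.append_right _

theorem weave_chain {R : V → V → Prop} : ∀ (ss : List (V × V)) (Fs Is : List (List V)) (z : V),
    List.Forall₂ (fun (s : V × V) F => IsPathFT R s.1 s.2 F) ss Fs →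
    List.Forall₂ (fun (p : V × V) I => (p.1 :: (I ++ [p.2])).IsChain R) (links ss z) Is →
    ss ≠ [] → (weave Fs Is ++ [z]).IsChain R ∧ (weave Fs Is).head? = (ss.map Prod.fst).head?
  | [], _, _, _, _, _, h => absurd rfl h
  | [s], Fs, Is, z, h1, h2, _ => by
    cases h1 with
    | cons hF hFs =>
      rename_i F Fs
      cases hFs
      cases h2 with
      | cons hI hIs =>
        rename_i I Is
        cases hIs
        simp only at hI
        constructor
        · simp only [weave, List.append_nil]
          rw [List.append_assoc, List.isChain_append]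
          rw [List.isChain_cons] at hI
          refine ⟨hF.chain, hI.2, ?_⟩
          intro x hx y hy
          rw [hF.last] at hx
          simp only [Option.mem_def, Option.some.injEq] at hx
          subst hx
          exact hI.1 y hy
        · simp only [weave, List.append_nil, List.map_cons, List.map_nil, List.head?_cons]
          rw [List.head?_append_of_ne_nil _ hF.ne_nil, hF.head]
  | s :: s' :: ss, Fs, Is, z, h1, h2, _ => by
    cases h1 with
    | cons hF hFs =>
      rename_i F Fs
      simp only [links] at h2
      cases h2 with
      | cons hI hIs =>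
        rename_i I Is
        simp only at hI
        obtain ⟨ih1, ih2⟩ := weave_chain (s' :: ss) Fs Is z hFs hIs (by simp)
        have hne : weave Fs Is ≠ [] := by
          intro h0
          rw [h0] at ih2
          simp at ih2
        constructor
        · simp only [weave]
          rw [List.append_assoc, List.isChain_append]
          refine ⟨hF.chain, ?_, ?_⟩
          · rw [List.append_assoc, List.isChain_append]
            rw [List.isChain_cons, List.isChain_append] at hI
            refine ⟨hI.2.1, ih1, ?_⟩
            intro x hx y hy
            rw [List.head?_append_of_ne_nil _ hne, ih2] at hy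
            simp only [List.map_cons, List.head?_cons, Option.mem_def, Option.some.injEq] at hy
            subst hy
            exact hI.2.2.2 x hx _ (by simp)
          · intro x hx y hy
            rw [hF.last] at hx
            simp only [Option.mem_def, Option.some.injEq] at hx
            subst hx
            rw [List.isChain_cons] at hI
            apply hI.1
            rcases I with _ | ⟨c, I⟩
            · simp only [List.nil_append] at hy ⊢
              rw [List.head?_append_of_ne_nil _ hne, ih2] at hy
              simpa using hy
            · simpa using hy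
        · simp only [weave, List.map_cons, List.head?_cons]
          rw [List.head?_append_of_ne_nil _ hF.ne_nil, hF.head]

end Pool.Agent.Work.MP_a7fe73_co
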