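import Pool.Agent.Work.MP_a7fe73_co.Cone
import Pool.Agent.Work.MP_a7fe73_co.Legs

/-!
Every 2-strong digraph with oriented stability number at most 3 has a Hamilton path.
-/

open Finset

namespace Pool.Agent.Work.MP_a7fe73_co

variable {V : Type*}

/-- `l` is a Hamilton path of `D`. -/
def HamList (D : Digraph V) : Prop := ∃ l : List V, l.IsChain D.Adj ∧ l.Nodup ∧ ∀ v, v ∈ l

theorem IsPathFT.append {R : V → V → Prop} {x y x' y' : V} {l l' : List V}
    (h : IsPathFT R x y l) (h' : IsPathFT R x' y' l') (hR : R y x')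
    (hd : ∀ v ∈ l, v ∉ l') : IsPathFT R x y' (l ++ l') := by
  refine ⟨?_, ?_, ?_, ?_⟩
  · rw [List.isChain_append]
    refine ⟨h.chain, h'.chain, ?_⟩
    intro a ha b hb
    rw [h.last] at ha
    rw [h'.head] at hb
    simp only [Option.mem_def, Option.some.injEq] at ha hb
    rw [← ha, ← hb]
    exact hR
  · rw [List.head?_append_of_ne_nil _ h.ne_nil]
    exact h.head
  · rw [List.getLast?_append_of_ne_nil _ h'.ne_nil]
    exact h'.last
  · rw [List.nodup_append]
    refine ⟨h.nodup, h'.nodup, ?_⟩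
    intro a ha b hb hab
    subst hab
    exact hd a ha hb

/-- A clique of the digon graph. -/
def Clq (D : Digraph V) (X : Finset V) : Prop :=
  ∀ u ∈ X, ∀ v ∈ X, u ≠ v → D.Adj u v

theorem Clq.chain {D : Digraph V} {X : Finset V} (h : Clq D X) {l : List V} (hnd : l.Nodup)
    (hl : ∀ v ∈ l, v ∈ X) : l.IsChain D.Adj := by
  refine List.Pairwise.isChain ?_
  rw [List.pairwise_iff_forall_sublist]
  intro a b hab
  refine h a (hl a (hab.subset (by simp))) b (hl b (hab.subset (by simp))) ?_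
  rintro rfl
  exact (List.nodup_iff_sublist.mp hnd) a hab

theorem Clq.mono {D : Digraph V} {X Y : Finset V} (h : Clq D X) (hY : Y ⊆ X) : Clq D Y :=
  fun u hu v hv huv => h u (hY hu) v (hY hv) huv

variable [DecidableEq V]

theorem Clq.path_from {D : Digraph V} {X : Finset V} (h : Clq D X) {x : V} (hx : x ∈ X) :
    ∃ y l, IsPathFT D.Adj x y l ∧ ∀ v, v ∈ l ↔ v ∈ X := by
  have hmem : ∀ v, v ∈ x :: (X.erase x).toList ↔ v ∈ X := by
    intro v
    simp only [List.mem_cons, mem_toList, mem_erase]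
    by_cases hv : v = x
    · simp [hv, hx]
    · simp [hv]
  have hnd : (x :: (X.erase x).toList).Nodup := by
    rw [List.nodup_cons]
    exact ⟨by simp, nodup_toList _⟩
  refine ⟨(x :: (X.erase x).toList).getLast (by simp), x :: (X.erase x).toList,
    ⟨h.chain hnd (fun v hv => (hmem v).mp hv), rfl,
      List.getLast?_eq_some_getLast _, hnd⟩, hmem⟩

theorem Clq.path_to {D : Digraph V} {X : Finset V} (h : Clq D X) {x : V} (hx : x ∈ X) :
    ∃ y l, IsPathFT D.Adj y x l ∧ ∀ v, v ∈ l ↔ v ∈ X := by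
  have hmem : ∀ v, v ∈ (X.erase x).toList ++ [x] ↔ v ∈ X := by
    intro v
    simp only [List.mem_append, List.mem_singleton, mem_toList, mem_erase]
    by_cases hv : v = x
    · simp [hv, hx]
    · simp [hv]
  have hnd : ((X.erase x).toList ++ [x]).Nodup := by
    rw [List.nodup_append]
    refine ⟨nodup_toList _, by simp, ?_⟩
    intro a ha b hb hab
    rw [mem_toList, mem_erase] at ha
    rw [List.mem_singleton] at hb
    exact ha.1 (hab.trans hb)
  refine ⟨((X.erase x).toList ++ [x]).head (by simp), (X.erase x).toList ++ [x],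
    ⟨h.chain hnd (fun v hv => (hmem v).mp hv), List.head?_eq_some_head _,
      by simp, hnd⟩, hmem⟩

theorem Clq.path_between {D : Digraph V} {X : Finset V} (h : Clq D X) {x y : V} (hx : x ∈ X)
    (hy : y ∈ X) (hxy : x ≠ y) :
    ∃ l, IsPathFT D.Adj x y l ∧ ∀ v, v ∈ l ↔ v ∈ X := by
  have hmem : ∀ v, v ∈ x :: (((X.erase x).erase y).toList ++ [y]) ↔ v ∈ X := by
    intro v
    simp only [List.mem_cons, List.mem_append, mem_toList, mem_erase, List.not_mem_nil,
      or_false]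
    by_cases hv : v = x
    · simp [hv, hx]
    · by_cases hv' : v = y
      · simp [hv', hy]
      · simp [hv, hv']
  have hnd : (x :: (((X.erase x).erase y).toList ++ [y])).Nodup := by
    rw [List.nodup_cons, List.nodup_append]
    refine ⟨?_, nodup_toList _, by simp, ?_⟩
    · simp [hxy]
    · intro a ha b hb hab
      rw [mem_toList, mem_erase] at ha
      rw [List.mem_singleton] at hb
      exact ha.1 (hab.trans hb)
  refine ⟨x :: (((X.erase x).erase y).toList ++ [y]),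
    ⟨h.chain hnd (fun v hv => (hmem v).mp hv), rfl, ?_, hnd⟩, hmem⟩
  have e : x :: (((X.erase x).erase y).toList ++ [y]) =
    (x :: ((X.erase x).erase y).toList) ++ [y] := rfl
  rw [e, List.getLast?_append_of_ne_nil _ (by simp)]
  rfl

/-- A partition of the vertex set into three digon-cliques. -/
structure Tri (D : Digraph V) (X Y Z : Finset V) : Prop where
  cover : ∀ v, v ∈ X ∨ v ∈ Y ∨ v ∈ Z
  dXY : Disjoint X Y
  dYZ : Disjoint Y Z
  dXZ : Disjoint X Z
  cX : Clq D X
  cY : Clq D Y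
  cZ : Clq D Z

theorem Tri.swap₁ {D : Digraph V} {X Y Z : Finset V} (h : Tri D X Y Z) : Tri D Y X Z :=
  ⟨fun v => by have := h.cover v; tauto, h.dXY.symm, h.dXZ, h.dYZ, h.cY, h.cX, h.cZ⟩

theorem Tri.swap₂ {D : Digraph V} {X Y Z : Finset V} (h : Tri D X Y Z) : Tri D X Z Y :=
  ⟨fun v => by have := h.cover v; tauto, h.dXZ, h.dYZ.symm, h.dXY, h.cX, h.cZ, h.cY⟩

theorem Tri.path {D : Digraph V} {X Y Z : Finset V} (h : Tri D X Y Z) {x y y' z : V}
    (hx : x ∈ X) (hy : y ∈ Y) (hy' : y' ∈ Y) (hz : z ∈ Z) (hxy : D.Adj x y) (hyz : D.Adj y' z)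
    (hne : y ≠ y' ∨ ∀ w ∈ Y, w = y) : HamList D := by
  obtain ⟨a, l₁, h₁, m₁⟩ := h.cX.path_to hx
  obtain ⟨b, l₃, h₃, m₃⟩ := h.cZ.path_from hz
  have hmid : ∃ l, IsPathFT D.Adj y y' l ∧ ∀ v, v ∈ l ↔ v ∈ Y := by
    by_cases hyy : y = y'
    · subst hyy
      refine ⟨[y], ⟨by simp, rfl, rfl, by simp⟩, fun v => ?_⟩
      rw [List.mem_singleton]
      constructor
      · rintro rfl
        exact hy
      · intro hv
        rcases hne with hne | hne
        · exact absurd rfl hne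
        · exact hne v hv
    · exact h.cY.path_between hy hy' hyy
  obtain ⟨l₂, h₂, m₂⟩ := hmid
  have h₂₃ := h₂.append h₃ hyz (fun v hv hv' =>
    Finset.disjoint_left.mp h.dYZ ((m₂ v).mp hv) ((m₃ v).mp hv'))
  have h₁₂₃ := h₁.append h₂₃ hxy (fun v hv hv' => by
    rcases List.mem_append.mp hv' with hv' | hv'
    · exact Finset.disjoint_left.mp h.dXY ((m₁ v).mp hv) ((m₂ v).mp hv')
    · exact Finset.disjoint_left.mp h.dXZ ((m₁ v).mp hv) ((m₃ v).mp hv'))
  refine ⟨_, h₁₂₃.chain, h₁₂₃.nodup, fun v => ?_⟩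
  rw [List.mem_append, List.mem_append, m₁, m₂, m₃]
  exact h.cover v

/-- What the absence of a Hamilton path says about consecutive arcs. -/
theorem Tri.bottleneck {D : Digraph V} {X Y Z : Finset V} (h : Tri D X Y Z)
    (hno : ¬ HamList D) (hXY : ∃ x ∈ X, ∃ y ∈ Y, D.Adj x y) (hYZ : ∃ y ∈ Y, ∃ z ∈ Z, D.Adj y z) :
    ∃ y₀ ∈ Y, (∀ x ∈ X, ∀ y ∈ Y, D.Adj x y → y = y₀) ∧ (∀ y ∈ Y, ∀ z ∈ Z, D.Adj y z → y = y₀) ∧
      ∃ w ∈ Y, w ≠ y₀ := by
  obtain ⟨x₁, hx₁, y₁, hy₁, h₁⟩ := hXY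
  obtain ⟨y₂, hy₂, z₂, hz₂, h₂⟩ := hYZ
  have key : ∀ x ∈ X, ∀ y ∈ Y, D.Adj x y → ∀ y' ∈ Y, ∀ z ∈ Z, D.Adj y' z → y = y' := by
    intro x hx y hy hxy y' hy' z hz hyz
    by_contra hne
    exact hno (h.path hx hy hy' hz hxy hyz (Or.inl hne))
  have h12 : y₁ = y₂ := key x₁ hx₁ y₁ hy₁ h₁ y₂ hy₂ z₂ hz₂ h₂
  refine ⟨y₁, hy₁, ?_, ?_, ?_⟩
  · intro x hx y hy hxy
    rw [h12]
    exact key x hx y hy hxy y₂ hy₂ z₂ hz₂ h₂
  · intro y hy z hz hyz
    exact (key x₁ hx₁ y₁ hy₁ h₁ y hy z hz hyz).symm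
  · by_contra hcon
    push Not at hcon
    exact hno (h.path hx₁ hy₁ hy₂ hz₂ h₁ h₂ (Or.inr hcon))

/-- Strongness in terms of cuts. -/
theorem cut_arc [Fintype V] {D : Digraph V} {k : ℕ}
    (hst : ∀ X : Finset V, X.card < k → ∀ u v : V, u ∉ X → v ∉ X →
      Relation.ReflTransGen (fun a b => a ∉ X ∧ b ∉ X ∧ D.Adj a b) u v)
    {T A : Finset V} (hT : T.card < k) {a b : V} (ha : a ∈ A) (haT : a ∉ T) (hb : b ∉ A)
    (hbT : b ∉ T) : ∃ x ∈ A, ∃ y, y ∉ A ∧ x ∉ T ∧ y ∉ T ∧ D.Adj x y := by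
  have h := hst T hT a b haT hbT
  by_contra hcon
  push Not at hcon
  have : ∀ c, Relation.ReflTransGen (fun a b => a ∉ T ∧ b ∉ T ∧ D.Adj a b) a c → c ∈ A := by
    intro c hc
    induction hc with
    | refl => exact ha
    | tail _ h2 ih =>
      rename_i u w _
      by_contra hw
      exact hcon u ih w hw h2.1 h2.2.1 h2.2.2
  exact hb (this b h)

theorem Tri.ham_aux [Fintype V] {D : Digraph V}
    (hst : ∀ X : Finset V, X.card < 2 → ∀ u v : V, u ∉ X → v ∉ X →
      Relation.ReflTransGen (fun a b => a ∉ X ∧ b ∉ X ∧ D.Adj a b) u v)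
    {X Y Z : Finset V} (h : Tri D X Y Z)
    (hXY : ∃ x ∈ X, ∃ y ∈ Y, D.Adj x y) (hYZ : ∃ y ∈ Y, ∃ z ∈ Z, D.Adj y z) : HamList D := by
  by_contra hno
  obtain ⟨xx, hxx⟩ : X.Nonempty := let ⟨x, hx, _⟩ := hXY; ⟨x, hx⟩
  obtain ⟨zz, hzz⟩ : Z.Nonempty := let ⟨_, _, z, hz, _⟩ := hYZ; ⟨z, hz⟩
  have nXY : ∀ v ∈ X, v ∉ Y := fun v h1 h2 => Finset.disjoint_left.mp h.dXY h1 h2
  have nYZ : ∀ v ∈ Y, v ∉ Z := fun v h1 h2 => Finset.disjoint_left.mp h.dYZ h1 h2
  have nXZ : ∀ v ∈ X, v ∉ Z := fun v h1 h2 => Finset.disjoint_left.mp h.dXZ h1 h2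
  obtain ⟨y₀, hy₀, a1, a2, w, hw, hwy⟩ := h.bottleneck hno hXY hYZ
  -- (a) an arc from Z to Y minus y₀
  have hZY : ∃ z ∈ Z, ∃ y ∈ Y, D.Adj z y ∧ y ≠ y₀ := by
    obtain ⟨x, hx, y, hy, h1, h2, h3⟩ := cut_arc hst (T := {y₀}) (A := X ∪ Z) (by simp)
      (a := xx) (b := w) (by simp [hxx])
      (by rw [mem_singleton]; rintro rfl; exact nXY _ hxx hy₀)
      (by rw [mem_union]; rintro (h' | h'); exacts [nXY _ h' hw, nYZ _ hw h'])
      (by simpa using hwy)
    rw [mem_singleton] at h1 h2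
    rw [mem_union] at hx hy
    push Not at hy
    have hyY : y ∈ Y := by have := h.cover y; tauto
    rcases hx with hx | hx
    · exact absurd (a1 x hx y hyY h3) h2
    · exact ⟨x, hx, y, hyY, h3, h2⟩
  -- (b) an arc from Y minus y₀ to X
  have hYX : ∃ y ∈ Y, ∃ x ∈ X, D.Adj y x ∧ y ≠ y₀ := by
    obtain ⟨x, hx, y, hy, h1, h2, h3⟩ := cut_arc hst (T := {y₀}) (A := Y.erase y₀) (by simp)
      (a := w) (b := xx) (by simp [hw, hwy]) (by simpa using hwy)
      (by rw [mem_erase]; rintro ⟨_, h'⟩; exact nXY _ hxx h')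
      (by rw [mem_singleton]; rintro rfl; exact nXY _ hxx hy₀)
    rw [mem_singleton] at h1 h2
    rw [mem_erase] at hx hy
    rcases h.cover y with h4 | h4 | h4
    · exact ⟨x, hx.2, y, h4, h3, h1⟩
    · exact absurd ⟨h2, h4⟩ hy
    · exact absurd (a2 x hx.2 y h4 h3) h1
  -- (c) an arc from X to Z
  have hXZ : ∃ x ∈ X, ∃ z ∈ Z, D.Adj x z := by
    obtain ⟨x, hx, y, hy, h1, h2, h3⟩ := cut_arc hst (T := {y₀}) (A := X) (by simp)
      (a := xx) (b := zz) hxx
      (by rw [mem_singleton]; rintro rfl; exact nXY _ hxx hy₀)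
      (by intro h'; exact nXZ _ h' hzz)
      (by rw [mem_singleton]; rintro rfl; exact nYZ _ hy₀ hzz)
    rw [mem_singleton] at h1 h2
    rcases h.cover y with h4 | h4 | h4
    · exact absurd h4 hy
    · exact absurd (a1 x hx y h4 h3) h2
    · exact ⟨x, hx, y, h4, h3⟩
  obtain ⟨zy, hzy, yz, hyz, ezy, nyz⟩ := hZY
  obtain ⟨yx, hyx, xy, hxy, eyx, nyx⟩ := hYX
  -- the orders (Z, Y, X), (X, Z, Y), (Y, X, Z)
  obtain ⟨y₁, hy₁, b1, b2, -⟩ := h.swap₂.swap₁.swap₂.bottleneck hno
    ⟨zy, hzy, yz, hyz, ezy⟩ ⟨yx, hyx, xy, hxy, eyx⟩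
  obtain ⟨z₀, hz₀, c1, c2, wz, hwz, nwz⟩ := h.swap₂.bottleneck hno hXZ ⟨zy, hzy, yz, hyz, ezy⟩
  obtain ⟨x₀, hx₀, d1, d2, wx, hwx, nwx⟩ := h.swap₁.bottleneck hno ⟨yx, hyx, xy, hxy, eyx⟩ hXZ
  -- (d) an arc from Y to Z minus z₀
  have hYZ' : ∃ y ∈ Y, ∃ z ∈ Z, D.Adj y z ∧ z ≠ z₀ := by
    obtain ⟨x, hx, y, hy, h1, h2, h3⟩ := cut_arc hst (T := {z₀}) (A := X ∪ Y) (by simp)
      (a := xx) (b := wz) (by simp [hxx])
      (by rw [mem_singleton]; rintro rfl; exact nXZ _ hxx hz₀)
      (by rw [mem_union]; rintro (h' | h'); exacts [nXZ _ h' hwz, nYZ _ h' hwz])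
      (by simpa using nwz)
    rw [mem_singleton] at h1 h2
    rw [mem_union] at hx hy
    push Not at hy
    have hyZ : y ∈ Z := by have := h.cover y; tauto
    rcases hx with hx | hx
    · exact absurd (c1 x hx y hyZ h3) h2
    · exact ⟨x, hx, y, hyZ, h3, h2⟩
  -- (e) an arc from Z to X
  have hZX : ∃ z ∈ Z, ∃ x ∈ X, D.Adj z x := by
    obtain ⟨x, hx, y, hy, h1, h2, h3⟩ := cut_arc hst (T := {z₀}) (A := Z.erase z₀) (by simp)
      (a := wz) (b := xx) (by simp [hwz, nwz]) (by simpa using nwz)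
      (by rw [mem_erase]; rintro ⟨_, h'⟩; exact nXZ _ hxx h')
      (by rw [mem_singleton]; rintro rfl; exact nXZ _ hxx hz₀)
    rw [mem_singleton] at h1 h2
    rw [mem_erase] at hx hy
    rcases h.cover y with h4 | h4 | h4
    · exact ⟨x, hx.2, y, h4, h3⟩
    · exact absurd (c2 x hx.2 y h4 h3) h1
    · exact absurd ⟨h2, h4⟩ hy
  -- the orders (Z, X, Y) and (Y, Z, X)
  obtain ⟨x₁, hx₁, e1, e2, -⟩ := h.swap₂.swap₁.bottleneck hno hZX hXY
  obtain ⟨z₁, hz₁, f1, f2, -⟩ := h.swap₁.swap₂.bottleneck hno hYZ hZX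
  -- (f) x₁ ≠ x₀
  have hx10 : x₁ ≠ x₀ := by
    obtain ⟨x, hx, y, hy, h1, h2, h3⟩ := cut_arc hst (T := {x₀}) (A := X.erase x₀) (by simp)
      (a := wx) (b := zz) (by simp [hwx, nwx]) (by simpa using nwx)
      (by rw [mem_erase]; rintro ⟨_, h'⟩; exact nXZ _ h' hzz)
      (by rw [mem_singleton]; rintro rfl; exact nXZ _ hx₀ hzz)
    rw [mem_singleton] at h1 h2
    rw [mem_erase] at hx hy
    rcases h.cover y with h4 | h4 | h4
    · exact absurd ⟨h2, h4⟩ hy
    · rw [← e2 x hx.2 y h4 h3]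
      exact hx.1
    · exact absurd (d2 x hx.2 y h4 h3) h1
  have hy10 : y₁ ≠ y₀ := by
    rw [← b1 zy hzy yz hyz ezy]
    exact nyz
  -- the arcs of the final path
  have g1 : D.Adj y₁ x₀ := by
    have h1 := b2 yx hyx xy hxy eyx
    have h2 := d1 yx hyx xy hxy eyx
    rw [← h1, ← h2]
    exact eyx
  have g2 : D.Adj x₁ y₀ := by
    obtain ⟨x, hx, y, hy, hxy'⟩ := hXY
    rw [← a1 x hx y hy hxy', ← e2 x hx y hy hxy']
    exact hxy'
  have g3 : D.Adj y₀ z₁ := by
    obtain ⟨y, hy, z, hz, hyz'⟩ := hYZ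
    rw [← a2 y hy z hz hyz', ← f1 y hy z hz hyz']
    exact hyz'
  obtain ⟨s, l₁, p₁, m₁⟩ := (h.cY.mono (erase_subset y₀ Y)).path_to
    (mem_erase.mpr ⟨hy10, hy₁⟩)
  obtain ⟨l₂, p₂, m₂⟩ := h.cX.path_between hx₀ hx₁ (Ne.symm hx10)
  have p₃ : IsPathFT D.Adj y₀ y₀ [y₀] := ⟨by simp, rfl, rfl, by simp⟩
  obtain ⟨e, l₄, p₄, m₄⟩ := h.cZ.path_from hz₁
  have q₃ := p₃.append p₄ g3 (fun v hv hv' => by
    rw [List.mem_singleton] at hv
    subst hv
    exact nYZ _ hy₀ ((m₄ _).mp hv'))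
  have q₂ := p₂.append q₃ g2 (fun v hv hv' => by
    have hv := (m₂ v).mp hv
    rcases List.mem_append.mp hv' with hv' | hv'
    · rw [List.mem_singleton] at hv'
      subst hv'
      exact nXY _ hv hy₀
    · exact nXZ _ hv ((m₄ _).mp hv'))
  have q₁ := p₁.append q₂ g1 (fun v hv hv' => by
    have hv := (m₁ v).mp hv
    rw [mem_erase] at hv
    rcases List.mem_append.mp hv' with hv' | hv'
    · exact nXY _ ((m₂ _).mp hv') hv.2
    · rcases List.mem_append.mp hv' with hv' | hv'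
      · rw [List.mem_singleton] at hv'
        exact hv.1 hv'
      · exact nYZ _ hv.2 ((m₄ _).mp hv'))
  apply hno
  refine ⟨_, q₁.chain, q₁.nodup, fun v => ?_⟩
  rw [List.mem_append, List.mem_append, List.mem_append, m₁, m₂, m₄, List.mem_singleton,
    mem_erase]
  have := h.cover v
  by_cases hv : v = y₀
  · tauto
  · tauto

/-- Three digon-cliques. -/
theorem Tri.ham [Fintype V] {D : Digraph V}
    (hst : ∀ X : Finset V, X.card < 2 → ∀ u v : V, u ∉ X → v ∉ X →
      Relation.ReflTransGen (fun a b => a ∉ X ∧ b ∉ X ∧ D.Adj a b) u v)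
    {X Y Z : Finset V} (h : Tri D X Y Z) (hX : X.Nonempty) (hY : Y.Nonempty)
    (hZ : Z.Nonempty) : HamList D := by
  obtain ⟨x, hx⟩ := hX
  obtain ⟨y, hy⟩ := hY
  obtain ⟨z, hz⟩ := hZ
  have nXY : ∀ v ∈ X, v ∉ Y := fun v h1 h2 => Finset.disjoint_left.mp h.dXY h1 h2
  have nYZ : ∀ v ∈ Y, v ∉ Z := fun v h1 h2 => Finset.disjoint_left.mp h.dYZ h1 h2
  have nXZ : ∀ v ∈ X, v ∉ Z := fun v h1 h2 => Finset.disjoint_left.mp h.dXZ h1 h2
  -- general step: if there is an arc from X to Y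
  have step : ∀ {X Y Z : Finset V}, Tri D X Y Z → (∀ v ∈ X, v ∉ Y) → (∀ v ∈ Y, v ∉ Z) →
      (∀ v ∈ X, v ∉ Z) → (∀ x ∈ X, ∀ z ∈ Z, (∃ x ∈ X, ∃ y ∈ Y, D.Adj x y) → HamList D) := by
    intro X Y Z h nXY nYZ nXZ x hx z hz hXY
    obtain ⟨y, hy⟩ : Y.Nonempty := let ⟨_, _, y, hy, _⟩ := hXY; ⟨y, hy⟩
    by_cases hYZ : ∃ y ∈ Y, ∃ z ∈ Z, D.Adj y z
    · exact h.ham_aux hst hXY hYZ
    · -- then there are arcs X → Z and Y → X
      have h1 : ∃ x ∈ X, ∃ z ∈ Z, D.Adj x z := by
        obtain ⟨a, ha, b, hb, _, _, hab⟩ := cut_arc hst (T := ∅) (A := X ∪ Y) (by simp)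
          (a := x) (b := z) (by simp [hx]) (by simp)
          (by rw [mem_union]; rintro (h' | h'); exacts [nXZ _ h' hz, nYZ _ h' hz]) (by simp)
        rw [mem_union] at ha hb
        push Not at hb
        have hbZ : b ∈ Z := by have := h.cover b; tauto
        rcases ha with ha | ha
        · exact ⟨a, ha, b, hbZ, hab⟩
        · exact absurd ⟨a, ha, b, hbZ, hab⟩ hYZ
      have h2 : ∃ y ∈ Y, ∃ x ∈ X, D.Adj y x := by
        obtain ⟨a, ha, b, hb, _, _, hab⟩ := cut_arc hst (T := ∅) (A := Y) (by simp)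
          (a := y) (b := z) hy (by simp) (by intro h'; exact nYZ _ h' hz) (by simp)
        rcases h.cover b with h' | h' | h'
        · exact ⟨a, ha, b, h', hab⟩
        · exact absurd h' hb
        · exact absurd ⟨a, ha, b, h', hab⟩ hYZ
      exact h.swap₁.ham_aux hst h2 h1
  obtain ⟨a, ha, b, hb, _, _, hab⟩ := cut_arc hst (T := ∅) (A := X) (by simp)
    (a := x) (b := y) hx (by simp) (by intro h'; exact nXY _ h' hy) (by simp)
  rcases h.cover b with h' | h' | h'
  · exact absurd h' hb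
  · exact step h nXY nYZ nXZ x hx z hz ⟨a, ha, b, h', hab⟩
  · exact step h.swap₂ nXZ (fun v h1 h2 => nYZ v h2 h1) nXY x hx y hy ⟨a, ha, b, h', hab⟩

/-- Two digon-cliques. -/
theorem two_clq [Fintype V] {D : Digraph V}
    (hst : ∀ X : Finset V, X.card < 2 → ∀ u v : V, u ∉ X → v ∉ X →
      Relation.ReflTransGen (fun a b => a ∉ X ∧ b ∉ X ∧ D.Adj a b) u v)
    {X Y : Finset V} (hd : Disjoint X Y) (hcov : ∀ v, v ∈ X ∨ v ∈ Y) (hX : Clq D X)
    (hY : Clq D Y) (hXne : X.Nonempty) (hYne : Y.Nonempty) : HamList D := by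
  obtain ⟨x, hx⟩ := hXne
  obtain ⟨y, hy⟩ := hYne
  obtain ⟨a, ha, b, hb, _, _, hab⟩ := cut_arc hst (T := ∅) (A := X) (by simp)
    (a := x) (b := y) hx (by simp) (fun h' => Finset.disjoint_left.mp hd h' hy) (by simp)
  have hbY : b ∈ Y := by have := hcov b; tauto
  obtain ⟨_, l₁, p₁, m₁⟩ := hX.path_to ha
  obtain ⟨_, l₂, p₂, m₂⟩ := hY.path_from hbY
  have q := p₁.append p₂ hab (fun v hv hv' =>
    Finset.disjoint_left.mp hd ((m₁ v).mp hv) ((m₂ v).mp hv'))
  refine ⟨_, q.chain, q.nodup, fun v => ?_⟩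
  rw [List.mem_append, m₁, m₂]
  exact hcov v

/-- A set with independence number at most one is a clique. -/
theorem clq_of_al {D : Digraph V} {X : Finset V} (h : al (digon D) X ≤ 1) : Clq D X := by
  intro u hu v hv huv
  by_contra hadj
  have hI : Ind (digon D) {u, v} := by
    intro a ha b hb hab
    rw [mem_insert, mem_singleton] at ha hb
    rcases ha with rfl | rfl <;> rcases hb with rfl | rfl
    · exact hab.1 rfl
    · exact hadj hab.2.1
    · exact hadj hab.2.2
    · exact hab.1 rfl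
  have h1 := le_al (G := digon D) (S := {u, v}) (U := X) (by
    intro w hw
    rw [mem_insert, mem_singleton] at hw
    rcases hw with rfl | rfl <;> assumption) hI
  rw [card_pair huv] at h1
  omega

theorem al_insert_le {G : SimpleGraph V} {U : Finset V} {v : V} :
    al G (insert v U) ≤ al G U + 1 := by
  refine al_le fun S hS hI => ?_
  have h1 : (S.erase v).card ≤ al G U := by
    refine le_al ?_ ?_
    · intro w hw
      rw [mem_erase] at hw
      have := hS hw.2
      rw [mem_insert] at this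
      tauto
    · intro a ha b hb
      exact hI a (mem_of_mem_erase ha) b (mem_of_mem_erase hb)
  have h2 := Finset.pred_card_le_card_erase (s := S) (a := v)
  omega

/-- A cut vertex can be put on one of the two sides without increasing the sum of the
independence numbers beyond that of the whole set. -/
theorem al_absorb {G : SimpleGraph V} {U A B : Finset V} {v : V} (hA : A ⊆ U) (hB : B ⊆ U)
    (hv : v ∈ U) (hvA : v ∉ A) (hvB : v ∉ B) (hd : Disjoint A B)
    (hno : ∀ a ∈ A, ∀ b ∈ B, ¬ G.Adj a b) :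
    al G (insert v A) + al G B ≤ al G U ∨ al G A + al G (insert v B) ≤ al G U := by
  by_contra hcon
  push Not at hcon
  obtain ⟨h1, h2⟩ := hcon
  have h3 := al_add hA hB hd hno
  have h4 : al G (insert v A) ≤ al G A + 1 := al_insert_le
  have h5 : al G (insert v B) ≤ al G B + 1 := al_insert_le
  have h6 : al G (insert v A) = al G A + 1 := by omega
  have h7 : al G (insert v B) = al G B + 1 := by omega
  have h8 : al G A + al G B = al G U := by omega
  obtain ⟨S, hS, hSI, hSc⟩ := exists_al G (insert v A)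
  obtain ⟨T, hT, hTI, hTc⟩ := exists_al G (insert v B)
  have hvS : v ∈ S := by
    by_contra h
    have : S ⊆ A := fun w hw => by
      have := hS hw
      rw [mem_insert] at this
      rcases this with rfl | h'
      · exact absurd hw h
      · exact h'
    have := le_al this hSI
    omega
  have hvT : v ∈ T := by
    by_contra h
    have : T ⊆ B := fun w hw => by
      have := hT hw
      rw [mem_insert] at this
      rcases this with rfl | h'
      · exact absurd hw h
      · exact h'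
    have := le_al this hTI
    omega
  have hSA : S.erase v ⊆ A := by
    intro w hw
    rw [mem_erase] at hw
    have := hS hw.2
    rw [mem_insert] at this
    tauto
  have hTB : T.erase v ⊆ B := by
    intro w hw
    rw [mem_erase] at hw
    have := hT hw.2
    rw [mem_insert] at this
    tauto
  have hI : Ind G (insert v (S.erase v ∪ T.erase v)) := by
    intro a ha b hb hab
    rw [mem_insert, mem_union] at ha hb
    have haS : a ∈ S ∨ a ∈ T := by
      rcases ha with rfl | h | h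
      · exact Or.inl hvS
      · exact Or.inl (mem_of_mem_erase h)
      · exact Or.inr (mem_of_mem_erase h)
    rcases ha with rfl | ha | ha
    · rcases hb with rfl | hb | hb
      · exact G.loopless.irrefl _ hab
      · exact hSI _ hvS _ (mem_of_mem_erase hb) hab
      · exact hTI _ hvT _ (mem_of_mem_erase hb) hab
    · rcases hb with rfl | hb | hb
      · exact hSI _ (mem_of_mem_erase ha) _ hvS hab
      · exact hSI _ (mem_of_mem_erase ha) _ (mem_of_mem_erase hb) hab
      · exact hno _ (hSA ha) _ (hTB hb) hab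
    · rcases hb with rfl | hb | hb
      · exact hTI _ (mem_of_mem_erase ha) _ hvT hab
      · exact hno _ (hSA hb) _ (hTB ha) hab.symm
      · exact hTI _ (mem_of_mem_erase ha) _ (mem_of_mem_erase hb) hab
  have hsub : insert v (S.erase v ∪ T.erase v) ⊆ U := by
    intro w hw
    rw [mem_insert, mem_union] at hw
    rcases hw with rfl | h | h
    · exact hv
    · exact hA (hSA h)
    · exact hB (hTB h)
  have h9 := le_al hsub hI
  have h10 : v ∉ S.erase v ∪ T.erase v := by simp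
  rw [card_insert_of_notMem h10, card_union_of_disjoint (disjoint_of_subset_left hSA
    (disjoint_of_subset_right hTB hd)), card_erase_of_mem hvS, card_erase_of_mem hvT] at h9
  have h11 : 0 < S.card := card_pos.mpr ⟨v, hvS⟩
  have h12 : 0 < T.card := card_pos.mpr ⟨v, hvT⟩
  omega

/-- If `U` is not 2-connected then it splits into two parts whose independence numbers sum to at
most that of `U`. -/
theorem split_of_not_conn {G : SimpleGraph V} {U : Finset V} (h : ¬ Conn G U 2) :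
    ∃ A B : Finset V, A.Nonempty ∧ B.Nonempty ∧ Disjoint A B ∧ A ∪ B = U ∧
      al G A + al G B ≤ al G U := by
  unfold Conn at h
  push Not at h
  obtain ⟨A, B, hA, hB, hd, hAne, hBne, hc, hno⟩ := h
  rcases (U \ (A ∪ B)).eq_empty_or_nonempty with h0 | ⟨v, hv⟩
  · refine ⟨A, B, hAne, hBne, hd, ?_, al_add hA hB hd hno⟩
    exact Subset.antisymm (union_subset hA hB) (sdiff_eq_empty_iff_subset.mp h0)
  · have h1 : U \ (A ∪ B) = {v} := by
      have : (U \ (A ∪ B)).card = 1 := by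
        have := card_pos.mpr ⟨v, hv⟩
        omega
      obtain ⟨w, hw⟩ := card_eq_one.mp this
      rw [hw] at hv ⊢
      rw [mem_singleton] at hv
      rw [hv]
    have hcov : ∀ w ∈ U, w ∈ A ∨ w ∈ B ∨ w = v := by
      intro w hw
      by_contra hcon
      push Not at hcon
      have : w ∈ U \ (A ∪ B) := by
        rw [mem_sdiff, mem_union]
        tauto
      rw [h1, mem_singleton] at this
      exact hcon.2.2 this
    rw [mem_sdiff, mem_union] at hv
    push Not at hv
    obtain ⟨hvU, hvA, hvB⟩ := hv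
    rcases al_absorb hA hB hvU hvA hvB hd hno with h2 | h2
    · refine ⟨insert v A, B, ⟨v, mem_insert_self _ _⟩, hBne, ?_, ?_, h2⟩
      · rw [disjoint_insert_left]
        exact ⟨hvB, hd⟩
      · ext w
        rw [mem_union, mem_insert]
        constructor
        · rintro ((rfl | h) | h)
          exacts [hvU, hA h, hB h]
        · intro h
          have := hcov w h
          tauto
    · refine ⟨A, insert v B, hAne, ⟨v, mem_insert_self _ _⟩, ?_, ?_, h2⟩
      · rw [disjoint_insert_right]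
        exact ⟨hvA, hd⟩
      · ext w
        rw [mem_union, mem_insert]
        constructor
        · rintro (h | (rfl | h))
          exacts [hA h, hvU, hB h]
        · intro h
          have := hcov w h
          tauto

theorem HamList.of_digon {D : Digraph V} [Fintype V] {x y : V} {l : List V}
    (h : IsPathFT (digon D).Adj x y l) (hm : ∀ v, v ∈ l ↔ v ∈ (univ : Finset V)) : HamList D :=
  ⟨l, h.chain.imp (fun _ _ h => h.2.1), h.nodup, fun v => (hm v).mpr (mem_univ v)⟩

/-- A digon-clique and a rest of oriented stability number at most two. -/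
theorem clq_plus_two [Fintype V] {D : Digraph V}
    (hst : ∀ X : Finset V, X.card < 2 → ∀ u v : V, u ∉ X → v ∉ X →
      Relation.ReflTransGen (fun a b => a ∉ X ∧ b ∉ X ∧ D.Adj a b) u v)
    {A B : Finset V} (hd : Disjoint A B) (hcov : A ∪ B = univ) (hAne : A.Nonempty)
    (hBne : B.Nonempty) (hA : al (digon D) A ≤ 1) (hB : al (digon D) B ≤ 2) : HamList D := by
  have hAc := clq_of_al hA
  have hcov' : ∀ v, v ∈ A ∨ v ∈ B := fun v => by
    have : v ∈ A ∪ B := by rw [hcov]; exact mem_univ v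
    exact mem_union.mp this
  by_cases hc : Conn (digon D) B 2
  · obtain ⟨x, hx⟩ := hAne
    obtain ⟨y, hy⟩ := hBne
    obtain ⟨a, ha, b, hb, _, _, hab⟩ := cut_arc hst (T := ∅) (A := A) (by simp)
      (a := x) (b := y) hx (by simp) (fun h' => Finset.disjoint_left.mp hd h' hy) (by simp)
    have hbB : b ∈ B := by have := hcov' b; tauto
    obtain ⟨c, l, hl, hm⟩ := ham_rooted (by norm_num) hB hc hbB
    have hl' := hl.reverse (fun _ _ h => h.symm)
    obtain ⟨_, l₁, p₁, m₁⟩ := hAc.path_to ha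
    have p₂ : IsPathFT D.Adj b c l.reverse :=
      ⟨hl'.chain.imp (fun _ _ h => h.2.1), hl'.head, hl'.last, hl'.nodup⟩
    have q := p₁.append p₂ hab (fun v hv hv' =>
      Finset.disjoint_left.mp hd ((m₁ v).mp hv) ((hm v).mp (List.mem_reverse.mp hv')))
    refine ⟨_, q.chain, q.nodup, fun v => ?_⟩
    rw [List.mem_append, m₁, List.mem_reverse, hm]
    exact hcov' v
  · obtain ⟨B₁, B₂, hne₁, hne₂, hd₁₂, hun, hal⟩ := split_of_not_conn hc
    have h1 := al_pos (G := digon D) hne₁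
    have h2 := al_pos (G := digon D) hne₂
    have hs₁ : B₁ ⊆ B := by rw [← hun]; exact subset_union_left
    have hs₂ : B₂ ⊆ B := by rw [← hun]; exact subset_union_right
    refine Tri.ham hst (X := A) (Y := B₁) (Z := B₂) ⟨?_, ?_, hd₁₂, ?_, hAc,
      clq_of_al (by omega), clq_of_al (by omega)⟩ hAne hne₁ hne₂
    · intro v
      have := hcov' v
      rw [← hun, mem_union] at this
      exact this
    · exact disjoint_of_subset_right hs₁ hd
    · exact disjoint_of_subset_right hs₂ hd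

/-- Every 2-strong digraph with oriented stability number at most 3 has a Hamilton path. -/
theorem kappa_two [Fintype V] {D : Digraph V} (hV : Nonempty V)
    (hst : ∀ X : Finset V, X.card < 2 → ∀ u v : V, u ∉ X → v ∉ X →
      Relation.ReflTransGen (fun a b => a ∉ X ∧ b ∉ X ∧ D.Adj a b) u v)
    (hal : al (digon D) univ ≤ 3) : HamList D := by
  by_cases hc : Conn (digon D) univ 2
  · obtain ⟨x, y, l, hl, hm⟩ := ham_path hal hc univ_nonempty
    exact HamList.of_digon hl hm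
  · obtain ⟨A, B, hAne, hBne, hd, hun, hs⟩ := split_of_not_conn hc
    have h1 := al_pos (G := digon D) hAne
    have h2 := al_pos (G := digon D) hBne
    by_cases hA : al (digon D) A ≤ 1
    · exact clq_plus_two hst hd hun hAne hBne hA (by omega)
    · exact clq_plus_two hst hd.symm (by rw [union_comm]; exact hun) hBne hAne (by omega)
        (by omega)

end Pool.Agent.Work.MP_a7fe73_co
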