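import Pool.Agent.Work.MP_a7fe73_co.Circuit

open Finset

namespace Pool.Agent.Results.MP_a7fe73_co.CubicConnectivity

variable {V : Type} [Fintype V]

/-- `D` is `k`-strong: it has at least `k + 1` vertices, and deleting fewer than `k` vertices
always leaves a strong digraph. -/
def IsKStrong (D : Digraph V) (k : ℕ) : Prop :=
  k + 1 ≤ Fintype.card V ∧
    ∀ X : Finset V, X.card < k → ∀ u v : V, u ∉ X → v ∉ X →
      Relation.ReflTransGen (fun a b => a ∉ X ∧ b ∉ X ∧ D.Adj a b) u v

/-- No two vertices of `S` are joined by arcs in both directions. -/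
def IsOrientedStable (D : Digraph V) (S : Finset V) : Prop :=
  ∀ u ∈ S, ∀ v ∈ S, u ≠ v → ¬ (D.Adj u v ∧ D.Adj v u)

open Classical in
/-- The oriented stability number: the largest size of an oriented-stable set. -/
noncomputable def alpha2 (D : Digraph V) : ℕ :=
  ((univ : Finset (Finset V)).filter (IsOrientedStable D)).sup Finset.card

/-- `D` has a directed Hamilton circuit: the vertices can be listed as `f 0, …, f (n - 1)`, each
exactly once, with an arc from `f i` to `f (i + 1)` for all `i`, indices taken modulo `n`. -/
def HasHamiltonCircuit (D : Digraph V) : Prop :=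
  ∃ f : Fin (Fintype.card V) → V, Function.Bijective f ∧
    ∀ i j : Fin (Fintype.card V), j.val = (i.val + 1) % Fintype.card V → D.Adj (f i) (f j)

/-- Every digraph `D` with `κ(D) ≥ 8 α₂(D) ^ 3` has a directed Hamilton circuit. -/
theorem result : ∀ (V : Type) [Fintype V] (D : Digraph V),
    IsKStrong D (8 * alpha2 D ^ 3) → HasHamiltonCircuit D := by
  classical
  intro V _ D ⟨hcard, hst⟩
  have hne : Nonempty V := Fintype.card_pos_iff.mp (by omega)
  have hal : Pool.Agent.Work.MP_a7fe73_co.al (Pool.Agent.Work.MP_a7fe73_co.digon D) univ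
      ≤ alpha2 D := by
    refine Pool.Agent.Work.MP_a7fe73_co.al_le fun S _ hS => ?_
    refine Finset.le_sup (f := Finset.card) ?_
    rw [mem_filter]
    exact ⟨mem_univ _, fun u hu v hv huv h => hS u hu v hv ⟨huv, h⟩⟩
  have ha : 1 ≤ alpha2 D := by
    refine le_trans ?_ hal
    exact Pool.Agent.Work.MP_a7fe73_co.al_pos univ_nonempty
  obtain ⟨L, z, hc, hz, hnd, hmem⟩ :=
    Pool.Agent.Work.MP_a7fe73_co.closed_list ha hcard hst hal le_rfl
  have hlen : L.length = Fintype.card V := by
    rw [← List.toFinset_card_of_nodup hnd, ← Finset.card_univ]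
    congr 1
    ext v
    simp [hmem v]
  refine ⟨fun i => L[i.val]'(by rw [hlen]; exact i.2), ?_, ?_⟩
  · constructor
    · intro i j hij
      exact Fin.ext ((hnd.getElem_inj_iff).mp hij)
    · intro v
      obtain ⟨i, hi, hv⟩ := List.getElem_of_mem (hmem v)
      exact ⟨⟨i, by rw [← hlen]; exact hi⟩, hv⟩
  · intro i j hij
    rw [List.isChain_iff_getElem] at hc
    have h1 := hc i.val (by rw [List.length_append, hlen]; simp)
    have hi : i.val < L.length := by rw [hlen]; exact i.2
    rw [List.getElem_append_left hi] at h1
    rcases Nat.lt_or_ge (i.val + 1) L.length with h | h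
    · rw [List.getElem_append_left h] at h1
      have h2 : j.val = i.val + 1 := by
        rw [hij]
        exact Nat.mod_eq_of_lt (by omega)
      simp only [h2]
      exact h1
    · have h2 : i.val + 1 = Fintype.card V := by omega
      have h3 : j.val = 0 := by rw [hij, h2, Nat.mod_self]
      simp only [h3]
      rw [List.getElem_append_right h] at h1
      have h4 : L[0]'(by omega) = z := by
        rw [List.head?_eq_getElem?, List.getElem?_eq_getElem (by omega)] at hz
        exact Option.some.inj hz
      rw [h4]
      simpa using h1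

end Pool.Agent.Results.MP_a7fe73_co.CubicConnectivity
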