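import Pool.Agent.Work.MP_a7fe73_co.KappaTwo

open Finset

namespace Pool.Agent.Work.MP_a7fe73_co.OldKappaTwoPath

variable {V : Type} [Fintype V]

/-- `D` is `k`-strong: it has at least `k + 1` vertices, and deleting fewer than `k` vertices
always leaves a strong digraph. -/
def IsKStrong (D : Digraph V) (k : ℕ) : Prop :=
  k + 1 ≤ Fintype.card V ∧
    ∀ X : Finset V, X.card < k → ∀ u v : V, u ∉ X → v ∉ X →
      Relation.ReflTransGen (fun a b => a ∉ X ∧ b ∉ X ∧ D.Adj a b) u v

/-- No two vertices of `S` are joined by arcs in both directions. -/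
def IsOrientedStable (D : Digraph V) (S : Finset V) : Prop :=
  ∀ u ∈ S, ∀ v ∈ S, u ≠ v → ¬ (D.Adj u v ∧ D.Adj v u)

open Classical in
/-- The oriented stability number: the largest size of an oriented-stable set. -/
noncomputable def alpha2 (D : Digraph V) : ℕ :=
  ((univ : Finset (Finset V)).filter (IsOrientedStable D)).sup Finset.card

/-- `D` has a directed Hamilton path: the vertices can be listed as `f 0, …, f (n - 1)`, each
exactly once, with an arc from `f i` to `f (i + 1)` for all `i < n - 1`. -/
def HasHamiltonPath (D : Digraph V) : Prop :=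
  ∃ f : Fin (Fintype.card V) → V, Function.Bijective f ∧
    ∀ i j : Fin (Fintype.card V), j.val = i.val + 1 → D.Adj (f i) (f j)

/-- Every digraph `D` with `κ(D) ≥ 2` and `α₂(D) ≤ 3` has a directed Hamilton path. -/
theorem result : ∀ (V : Type) [Fintype V] (D : Digraph V),
    IsKStrong D 2 → alpha2 D ≤ 3 → HasHamiltonPath D := by
  classical
  intro V _ D ⟨hcard, hst⟩ h3
  have hne : Nonempty V := Fintype.card_pos_iff.mp (by omega)
  have hal : Pool.Agent.Work.MP_a7fe73_co.al (Pool.Agent.Work.MP_a7fe73_co.digon D) univ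
      ≤ 3 := by
    refine le_trans ?_ h3
    refine Pool.Agent.Work.MP_a7fe73_co.al_le fun S _ hS => ?_
    refine Finset.le_sup (f := Finset.card) ?_
    rw [mem_filter]
    exact ⟨mem_univ _, fun u hu v hv huv h => hS u hu v hv ⟨huv, h⟩⟩
  obtain ⟨L, hc, hnd, hmem⟩ := Pool.Agent.Work.MP_a7fe73_co.kappa_two hne hst hal
  have hlen : L.length = Fintype.card V := by
    rw [← List.toFinset_card_of_nodup hnd, ← Finset.card_univ]
    congr 1
    ext v
    simp [hmem v]
  refine ⟨fun i => L[i.val]'(by rw [hlen]; exact i.2), ?_, ?_⟩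
  · constructor
    · intro i j hij
      exact Fin.ext ((hnd.getElem_inj_iff).mp hij)
    · intro v
      obtain ⟨i, hi, hv⟩ := List.getElem_of_mem (hmem v)
      exact ⟨⟨i, by rw [← hlen]; exact hi⟩, hv⟩
  · intro i j hij
    rw [List.isChain_iff_getElem] at hc
    have h1 := hc i.val (by rw [hlen]; have := j.2; omega)
    simp only [hij]
    exact h1

end Pool.Agent.Work.MP_a7fe73_co.OldKappaTwoPath
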