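import Pool.Agent.Work.MP_a7fe73_co.Basic

/-!
Paths as lists, shortest paths, and the Chvatal-Erdos argument for Hamilton-connectedness.
-/

open Finset

namespace Pool.Agent.Work.MP_a7fe73_co

variable {V : Type*}

/-- `l` is a path from `x` to `y` for the relation `R`. -/
structure IsPathFT (R : V → V → Prop) (x y : V) (l : List V) : Prop where
  chain : l.IsChain R
  head : l.head? = some x
  last : l.getLast? = some y
  nodup : l.Nodup

theorem IsPathFT.ne_nil {R : V → V → Prop} {x y : V} {l : List V} (h : IsPathFT R x y l) :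
    l ≠ [] := by
  intro h0
  have := h.head
  simp [h0] at this

theorem IsPathFT.mem_head {R : V → V → Prop} {x y : V} {l : List V} (h : IsPathFT R x y l) :
    x ∈ l := List.mem_of_head? h.head

theorem IsPathFT.mem_last {R : V → V → Prop} {x y : V} {l : List V} (h : IsPathFT R x y l) :
    y ∈ l := List.mem_of_getLast? h.last

theorem IsPathFT.reverse {R : V → V → Prop} (hR : ∀ a b, R a b → R b a) {x y : V} {l : List V}
    (h : IsPathFT R x y l) : IsPathFT R y x l.reverse := by
  refine ⟨?_, ?_, ?_, ?_⟩
  · rw [List.isChain_reverse]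
    exact h.chain.imp (fun a b hab => hR a b hab)
  · rw [List.head?_reverse]; exact h.last
  · rw [List.getLast?_reverse]; exact h.head
  · exact List.nodup_reverse.mpr h.nodup

theorem exists_min_length {P : List V → Prop} (h : ∃ l, P l) :
    ∃ l, P l ∧ ∀ l', P l' → l.length ≤ l'.length := by
  classical
  have hex : ∃ n, ∃ l, P l ∧ l.length = n := by
    obtain ⟨l, hl⟩ := h
    exact ⟨_, l, hl, rfl⟩
  obtain ⟨l, hl, hn⟩ := Nat.find_spec hex
  refine ⟨l, hl, fun l' hl' => ?_⟩
  rw [hn]
  exact Nat.find_min' hex ⟨l', hl', rfl⟩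

theorem exists_max_length {P : List V → Prop} (N : ℕ) (hb : ∀ l, P l → l.length ≤ N)
    (h : ∃ l, P l) : ∃ l, P l ∧ ∀ l', P l' → l'.length ≤ l.length := by
  classical
  have hex : ∃ n, ∃ l, P l ∧ N - l.length = n := by
    obtain ⟨l, hl⟩ := h
    exact ⟨_, l, hl, rfl⟩
  obtain ⟨l, hl, hn⟩ := Nat.find_spec hex
  refine ⟨l, hl, fun l' hl' => ?_⟩
  have h1 : Nat.find hex ≤ N - l'.length := Nat.find_min' hex ⟨l', hl', rfl⟩
  have h2 := hb l hl
  have h3 := hb l' hl'
  omega

theorem getLast?_append_cons (p q : List V) (a : V) :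
    (p ++ a :: q).getLast? = (a :: q).getLast? := by
  rw [List.getLast?_append_of_ne_nil _ (List.cons_ne_nil a q)]

theorem head?_append_cons (p q q' : List V) (a : V) :
    (p ++ a :: q).head? = (p ++ a :: q').head? := by
  cases p <;> simp

/-- A shortest path exists, and it has no shortcut. -/
theorem short_path (R : V → V → Prop) (P : V → Prop) (x y : V)
    (h : Relation.ReflTransGen (fun a b => P a ∧ P b ∧ R a b) x y) (hx : P x) :
    ∃ l, IsPathFT R x y l ∧ (∀ v ∈ l, P v) ∧
      ∀ u v w, List.Sublist [u, v, w] l → ¬ R u w := by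
  have hex : ∃ l : List V, l.IsChain R ∧ l.head? = some x ∧ l.getLast? = some y ∧
      ∀ v ∈ l, P v := by
    obtain ⟨l, hl1, hl2⟩ := List.exists_isChain_cons_of_relationReflTransGen h
    refine ⟨x :: l, ?_, by simp, ?_, ?_⟩
    · exact hl1.imp (fun a b hab => hab.2.2)
    · rw [List.getLast?_eq_some_getLast (List.cons_ne_nil x l), hl2]
    · refine List.IsChain.induction P (x :: l) hl1 ?_ ?_
      · intro a b hab _
        exact hab.2.1
      · intro _
        exact hx
  obtain ⟨l, ⟨hc, hh, hl, hP⟩, hmin⟩ := exists_min_length hex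
  refine ⟨l, ⟨hc, hh, hl, ?_⟩, hP, ?_⟩
  · rw [List.nodup_iff_sublist]
    intro a ha
    rw [List.cons_sublist_iff] at ha
    obtain ⟨r₁, r₂, rfl, h1, h2⟩ := ha
    rw [List.singleton_sublist] at h2
    obtain ⟨p, p', rfl⟩ := List.append_of_mem h1
    obtain ⟨q, q', rfl⟩ := List.append_of_mem h2
    have hlen := hmin (p ++ a :: q') ⟨?_, ?_, ?_, ?_⟩
    · simp only [List.length_append, List.length_cons] at hlen
      omega
    · rw [List.append_assoc, List.cons_append, List.isChain_split] at hc
      obtain ⟨c1, c2⟩ := hc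
      rw [List.isChain_split]
      refine ⟨c1, ?_⟩
      exact c2.suffix ⟨a :: p' ++ q, by simp⟩
    · rw [← hh, List.append_assoc, List.cons_append]
      exact head?_append_cons _ _ _ _
    · rw [← hl, getLast?_append_cons, ← List.append_assoc, getLast?_append_cons]
    · intro v hv
      apply hP
      simp only [List.mem_append, List.mem_cons] at hv ⊢
      tauto
  · intro u v w hs hR
    rw [List.cons_sublist_iff] at hs
    obtain ⟨r₁, r₂, rfl, h1, h2⟩ := hs
    rw [List.cons_sublist_iff] at h2
    obtain ⟨s₁, s₂, rfl, h2, h3⟩ := h2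
    rw [List.singleton_sublist] at h3
    obtain ⟨p, p', rfl⟩ := List.append_of_mem h1
    obtain ⟨q, q', rfl⟩ := List.append_of_mem h3
    have hs1 : 0 < s₁.length := List.length_pos_of_mem h2
    have hlen := hmin (p ++ u :: w :: q') ⟨?_, ?_, ?_, ?_⟩
    · simp only [List.length_append, List.length_cons] at hlen
      omega
    · rw [List.append_assoc, List.cons_append, List.isChain_split] at hc
      obtain ⟨c1, c2⟩ := hc
      rw [List.isChain_append_cons_cons]
      refine ⟨c1, hR, ?_⟩
      exact c2.suffix ⟨u :: p' ++ s₁ ++ q, by simp⟩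
    · rw [← hh, List.append_assoc, List.cons_append]
      exact head?_append_cons _ _ _ _
    · rw [← hl, ← List.append_assoc s₁ q, ← List.append_assoc, getLast?_append_cons,
        getLast?_append_cons]
      rfl
    · intro v hv
      apply hP
      simp only [List.mem_append, List.mem_cons] at hv ⊢
      tauto

/-- The set of vertices of `T` reachable from `v` inside `T`. -/
def Reach (R : V → V → Prop) (T : Finset V) (v w : V) : Prop :=
  Relation.ReflTransGen (fun a b => a ∈ T ∧ b ∈ T ∧ R a b) v w

theorem Reach.symm {R : V → V → Prop} (hR : ∀ a b, R a b → R b a) {T : Finset V} {v w : V}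
    (h : Reach R T v w) : Reach R T w v := by
  unfold Reach at h ⊢
  induction h with
  | refl => exact Relation.ReflTransGen.refl
  | tail _ h2 ih => exact Relation.ReflTransGen.head ⟨h2.2.1, h2.1, hR _ _ h2.2.2⟩ ih

theorem Reach.mem {R : V → V → Prop} {T : Finset V} {v w : V}
    (h : Reach R T v w) (hv : v ∈ T) : w ∈ T := by
  unfold Reach at h
  cases h with
  | refl => exact hv
  | tail _ h2 => exact h2.2.1

variable [DecidableEq V]

/-- Connectedness gives paths. -/
theorem Conn.reach {G : SimpleGraph V} {U : Finset V} {t : ℕ} (h : Conn G U t) (ht : 1 ≤ t)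
    {x y : V} (hx : x ∈ U) (hy : y ∈ U) : Reach G.Adj U x y := by
  classical
  by_contra hcon
  obtain ⟨a, ha, b, hb, hab⟩ := h (U.filter (fun w => Reach G.Adj U x w))
    (U.filter (fun w => ¬ Reach G.Adj U x w)) (filter_subset _ _) (filter_subset _ _)
    (disjoint_filter_filter_not _ _ _) ⟨x, mem_filter.mpr ⟨hx, Relation.ReflTransGen.refl⟩⟩
    ⟨y, mem_filter.mpr ⟨hy, hcon⟩⟩ (by
      rw [filter_union_filter_not_eq, sdiff_self, bot_eq_empty, card_empty]
      exact ht)
  rw [mem_filter] at ha hb
  exact hb.2 (Relation.ReflTransGen.tail ha.2 ⟨ha.1, hb.1, hab⟩)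

/-- Re-routing a path through an outside path `r`. -/
theorem reroute {G : SimpleGraph V} {x y u w k₁ k₂ : V} {p m q r : List V}
    (hl : IsPathFT G.Adj x y (p ++ u :: (m ++ w :: q)))
    (hr : IsPathFT G.Adj k₁ k₂ r) (hu : G.Adj u k₁) (hw : G.Adj k₂ w)
    (hdisj : ∀ v ∈ r, v ∉ p ++ u :: (m ++ w :: q))
    (hadj : m = [] ∨ ∃ s₁ ∈ m.head?, ∃ s₂ ∈ q.head?, G.Adj s₁ s₂) :
    ∃ l, IsPathFT G.Adj x y l ∧ (∀ v, v ∈ l ↔ v ∈ r ∨ v ∈ p ++ u :: (m ++ w :: q)) ∧
      (p ++ u :: (m ++ w :: q)).length < l.length := by
  have hperm : (p ++ u :: (r ++ (w :: (m.reverse ++ q)))).Perm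
      (r ++ (p ++ u :: (m ++ w :: q))) := by
    rw [List.perm_iff_count]
    intro a
    simp only [List.count_append, List.count_cons, List.count_reverse]
    omega
  have hrl : 0 < r.length := List.length_pos_of_ne_nil hr.ne_nil
  refine ⟨p ++ u :: (r ++ (w :: (m.reverse ++ q))), ⟨?_, ?_, ?_, ?_⟩, ?_, ?_⟩
  · have hc := hl.chain
    rw [List.isChain_split] at hc
    obtain ⟨c1, c2⟩ := hc
    rw [List.isChain_split]
    refine ⟨c1, ?_⟩
    have c3 : List.IsChain G.Adj (m ++ w :: q) := c2.suffix ⟨[u], rfl⟩
    rw [List.isChain_split] at c3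
    obtain ⟨c4, c5⟩ := c3
    have c6 : List.IsChain G.Adj (w :: m.reverse) := by
      have : (m ++ [w]).reverse = w :: m.reverse := by simp
      rw [← this, List.isChain_reverse]
      exact c4.imp (fun a b h => h.symm)
    have c7 : List.IsChain G.Adj (w :: (m.reverse ++ q)) := by
      rw [← List.cons_append, List.isChain_append]
      refine ⟨c6, c5.suffix ⟨[w], rfl⟩, ?_⟩
      intro a ha b hb
      rcases hadj with rfl | ⟨s₁, hs₁, s₂, hs₂, hadj⟩
      · simp only [List.reverse_nil, List.getLast?_singleton, Option.mem_def,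
          Option.some.injEq] at ha
        subst ha
        rw [List.isChain_cons] at c5
        exact c5.1 b hb
      · have hm : m ≠ [] := by
          intro h0
          simp [h0] at hs₁
        have h1 : (w :: m.reverse).getLast? = m.head? := by
          rw [← List.head?_reverse, List.reverse_cons, List.reverse_reverse]
          cases m with
          | nil => exact absurd rfl hm
          | cons => simp
        rw [h1] at ha
        have : a = s₁ := Option.mem_unique ha hs₁
        subst this
        have : b = s₂ := Option.mem_unique hb hs₂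
        subst this
        exact hadj
    rw [List.isChain_cons]
    constructor
    · intro b hb
      have : (r ++ (w :: (m.reverse ++ q))).head? = r.head? := by
        rw [List.head?_append_of_ne_nil _ hr.ne_nil]
      rw [this, hr.head] at hb
      simp only [Option.mem_def, Option.some.injEq] at hb
      rw [← hb]
      exact hu
    · rw [List.isChain_append]
      refine ⟨hr.chain, c7, ?_⟩
      intro a ha b hb
      rw [hr.last] at ha
      simp only [Option.mem_def, Option.some.injEq, List.head?_cons] at ha hb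
      rw [← ha, ← hb]
      exact hw
  · rw [← hl.head]
    exact head?_append_cons _ _ _ _
  · rw [← hl.last]
    rw [getLast?_append_cons, getLast?_append_cons]
    cases q with
    | nil =>
      rcases hadj with rfl | ⟨_, _, s₂, hs₂, _⟩
      · have e1 : u :: (r ++ w :: (([] : List V).reverse ++ [])) = (u :: r) ++ w :: [] := by simp
        have e2 : u :: (([] : List V) ++ [w]) = [u] ++ w :: [] := rfl
        rw [e1, e2, getLast?_append_cons, getLast?_append_cons]
      · simp at hs₂
    | cons b q =>
      have e1 : u :: (r ++ w :: (m.reverse ++ b :: q)) = (u :: r ++ w :: m.reverse) ++ b :: q := by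
        simp
      have e2 : u :: (m ++ w :: b :: q) = (u :: m ++ [w]) ++ b :: q := by simp
      rw [e1, e2, getLast?_append_cons, getLast?_append_cons]
  · rw [hperm.nodup_iff, List.nodup_append]
    refine ⟨hr.nodup, hl.nodup, ?_⟩
    intro a ha b hb hab
    subst hab
    exact hdisj a ha hb
  · intro v
    rw [hperm.mem_iff, List.mem_append]
  · have h8 := hperm.length_eq
    rw [List.length_append (as := r)] at h8
    omega

/-- Chvatal and Erdos: if `U` is `(a+1)`-connected and has independence number at most `a` then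
any two vertices of `U` are joined by a path with vertex set `U`. -/
theorem ham_connected {G : SimpleGraph V} {U : Finset V} {a : ℕ} (hal : al G U ≤ a)
    (hc : Conn G U (a + 1)) {x y : V} (hx : x ∈ U) (hy : y ∈ U) (hxy : x ≠ y) :
    ∃ l, IsPathFT G.Adj x y l ∧ ∀ v, v ∈ l ↔ v ∈ U := by
  classical
  -- a longest path
  have hex : ∃ l, IsPathFT G.Adj x y l ∧ ∀ v ∈ l, v ∈ U := by
    obtain ⟨l, h1, h2, _⟩ := short_path G.Adj (fun v => v ∈ U) x y
      (hc.reach (by omega) hx hy) hx
    exact ⟨l, h1, h2⟩
  obtain ⟨l, ⟨hl, hlU⟩, hmax⟩ := exists_max_length U.card (P := fun l =>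
    IsPathFT G.Adj x y l ∧ ∀ v ∈ l, v ∈ U) (by
      rintro l ⟨h1, h2⟩
      rw [← List.toFinset_card_of_nodup h1.nodup]
      exact card_le_card fun v hv => h2 v (List.mem_toFinset.mp hv)) hex
  refine ⟨l, hl, fun v => ⟨hlU v, fun hvU => ?_⟩⟩
  by_contra hvl
  -- the component of v outside l
  set T : Finset V := U \ l.toFinset with hT
  have hvT : v ∈ T := by
    rw [hT, mem_sdiff, List.mem_toFinset]
    exact ⟨hvU, hvl⟩
  set K : Finset V := T.filter (fun w => Reach G.Adj T v w) with hK
  have hvK : v ∈ K := mem_filter.mpr ⟨hvT, Relation.ReflTransGen.refl⟩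
  have hKclosed : ∀ k ∈ K, ∀ z ∈ T, G.Adj k z → z ∈ K := by
    intro k hk z hz hadj
    rw [hK, mem_filter] at hk ⊢
    exact ⟨hz, Relation.ReflTransGen.tail hk.2 ⟨hk.1, hz, hadj⟩⟩
  have hKpath : ∀ k₁ ∈ K, ∀ k₂ ∈ K, ∃ r, IsPathFT G.Adj k₁ k₂ r ∧ ∀ z ∈ r, z ∈ T := by
    intro k₁ hk₁ k₂ hk₂
    rw [hK, mem_filter] at hk₁ hk₂
    have h1 : Reach G.Adj T k₁ k₂ :=
      Relation.ReflTransGen.trans (hk₁.2.symm (fun a b h => h.symm)) hk₂.2
    obtain ⟨r, h2, h3, _⟩ := short_path G.Adj (fun v => v ∈ T) k₁ k₂ h1 hk₁.1
    exact ⟨r, h2, h3⟩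
  set N : Finset V := l.toFinset.filter (fun w => ∃ k ∈ K, G.Adj w k) with hN
  -- rerouting is impossible
  have hno : ∀ (p m q : List V) (u w : V), l = p ++ u :: (m ++ w :: q) → u ∈ N → w ∈ N →
      (m = [] ∨ ∃ s₁ ∈ m.head?, ∃ s₂ ∈ q.head?, G.Adj s₁ s₂) → False := by
    intro p m q u w hpq hu hw hadj
    rw [hN, mem_filter] at hu hw
    obtain ⟨_, k₁, hk₁, hu⟩ := hu
    obtain ⟨_, k₂, hk₂, hw⟩ := hw
    obtain ⟨r, hr, hrT⟩ := hKpath k₁ hk₁ k₂ hk₂
    rw [hpq] at hl
    obtain ⟨l', h1, h2, h3⟩ := reroute hl hr hu hw.symm (by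
      intro z hz
      have := hrT z hz
      rw [hT, mem_sdiff, List.mem_toFinset, hpq] at this
      exact this.2) hadj
    rw [← hpq] at h3 h2
    have := hmax l' ⟨h1, by
      intro z hz
      rcases (h2 z).mp hz with h4 | h4
      · have := hrT z h4
        rw [hT, mem_sdiff] at this
        exact this.1
      · exact hlU z h4⟩
    omega
  -- index form
  have hlen : 2 ≤ l.length := by
    rcases l with _ | ⟨b, _ | ⟨c, l⟩⟩
    · exact absurd rfl hl.ne_nil
    · have h1 := hl.head
      have h2 := hl.last
      simp only [List.head?_cons, List.getLast?_singleton, Option.some.injEq] at h1 h2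
      exact absurd (h1.symm.trans h2) hxy
    · simp
  have hsplit : ∀ i j (hj : j < l.length) (hij : i < j),
      ∃ p m q, l = p ++ l[i] :: (m ++ l[j] :: q) ∧ (m = [] ∨ m.head? = some (l[i+1])) ∧
        (∀ (hj' : j + 1 < l.length), q.head? = some (l[j+1])) := by
    intro i j hj hij
    have hi : i < l.length := by omega
    refine ⟨l.take i, (l.drop (i+1)).take (j - i - 1), l.drop (j+1), ?_, ?_, ?_⟩
    · have h1 : l[j] :: l.drop (j+1) = l.drop j := List.getElem_cons_drop hj
      have h2 : l.drop j = (l.drop (i+1)).drop (j - i - 1) := by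
        rw [List.drop_drop]
        congr 1
        omega
      rw [h1, h2, List.take_append_drop, List.getElem_cons_drop, List.take_append_drop]
    · rcases Nat.lt_or_ge (i + 1) j with h | h
      · right
        rw [List.head?_take, if_neg (by omega), List.head?_drop]
        exact List.getElem?_eq_getElem (by omega)
      · left
        have : j - i - 1 = 0 := by omega
        rw [this, List.take_zero]
    · intro hj'
      rw [List.head?_drop]
      exact List.getElem?_eq_getElem hj'
  set J : Finset ℕ := (range (l.length - 1)).filter (fun i => l.getD i v ∈ N) with hJ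
  have hget : ∀ i (hi : i < l.length), l.getD i v = l[i] := fun i hi =>
    List.getD_eq_getElem l v hi
  -- successors
  set I : Finset V := insert v (J.image (fun i => l.getD (i+1) v)) with hI
  have hJlt : ∀ i ∈ J, i + 1 < l.length ∧ l.getD i v ∈ N := by
    intro i hi
    rw [hJ, mem_filter, mem_range] at hi
    exact ⟨by omega, hi.2⟩
  have hinj : Set.InjOn (fun i => l.getD (i+1) v) (J : Set ℕ) := by
    intro i hi j hj hij
    have h1 := (hJlt i hi).1
    have h2 := (hJlt j hj).1
    simp only [hget _ h1, hget _ h2] at hij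
    have := (hl.nodup.getElem_inj_iff).mp hij
    omega
  have hvI : v ∉ J.image (fun i => l.getD (i+1) v) := by
    intro h
    rw [mem_image] at h
    obtain ⟨i, hi, h⟩ := h
    have h1 := (hJlt i hi).1
    rw [hget _ h1] at h
    exact hvl (h ▸ List.getElem_mem h1)
  have hIcard : I.card = J.card + 1 := by
    rw [hI, card_insert_of_notMem hvI, card_image_of_injOn hinj]
  have hNJ : N.card ≤ J.card + 1 := by
    have hsub : N ⊆ insert (l.getD (l.length - 1) v) (J.image (fun i => l.getD i v)) := by
      intro z hz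
      have hzl : z ∈ l := by
        rw [hN, mem_filter, List.mem_toFinset] at hz
        exact hz.1
      obtain ⟨i, hi, rfl⟩ := List.getElem_of_mem hzl
      rw [mem_insert, mem_image]
      rcases Nat.lt_or_ge i (l.length - 1) with h | h
      · right
        refine ⟨i, ?_, hget i hi⟩
        rw [hJ, mem_filter, mem_range, hget i hi]
        exact ⟨h, hz⟩
      · left
        have : i = l.length - 1 := by omega
        subst this
        rw [hget _ hi]
    exact (card_le_card hsub).trans ((card_insert_le _ _).trans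
      (Nat.add_le_add_right card_image_le 1))
  -- N is large
  have hNbig : a + 1 ≤ N.card := by
    by_contra hsmall
    push Not at hsmall
    have hcomp : U \ (K ∪ (U \ (K ∪ N))) ⊆ N := by
      intro z hz
      simp only [mem_sdiff, mem_union, not_or, not_and, not_not] at hz
      tauto
    rcases (U \ (K ∪ N)).eq_empty_or_nonempty with hB | hB
    · -- every vertex of l is in N
      have hall : ∀ z ∈ l, z ∈ N := by
        intro z hz
        by_contra hzN
        have : z ∈ U \ (K ∪ N) := by
          rw [mem_sdiff, mem_union]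
          refine ⟨hlU z hz, ?_⟩
          rintro (h | h)
          · rw [hK, mem_filter, hT, mem_sdiff, List.mem_toFinset] at h
            exact h.1.2 hz
          · exact hzN h
        rw [hB] at this
        simp at this
      obtain ⟨p, m, q, h1, h2, _⟩ := hsplit 0 1 (by omega) (by omega)
      have hm : m = [] := by
        have h3 := congrArg (fun l => l[1]?) h1
        by_contra hm
        rcases h2 with h2 | h2
        · exact hm h2
        · -- then l[1] appears twice
          have hnd := hl.nodup
          rw [h1] at hnd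
          have h4 : l[0+1] ∈ m := List.mem_of_head? h2
          rw [List.nodup_append] at hnd
          have h5 := (List.nodup_cons.mp hnd.2.1).2
          rw [List.nodup_append] at h5
          exact h5.2.2 _ h4 _ (by simp) rfl
      exact hno p m q _ _ h1 (hall _ (List.getElem_mem _)) (hall _ (List.getElem_mem _))
        (Or.inl hm)
    · obtain ⟨b, hb, z, hz, hadj⟩ := hc K (U \ (K ∪ N))
        (fun z hz => by
          rw [hK, mem_filter, hT, mem_sdiff] at hz
          exact hz.1.1)
        sdiff_subset (by
          rw [Finset.disjoint_left]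
          intro z hz hz'
          simp only [mem_sdiff, mem_union, not_or] at hz'
          exact hz'.2.1 hz) ⟨v, hvK⟩ hB ((card_le_card hcomp).trans_lt (by omega))
      simp only [mem_sdiff, mem_union, not_or] at hz
      by_cases hzl : z ∈ l
      · apply hz.2.2
        rw [hN, mem_filter, List.mem_toFinset]
        exact ⟨hzl, b, hb, hadj.symm⟩
      · apply hz.2.1
        refine hKclosed b hb z ?_ hadj
        rw [hT, mem_sdiff, List.mem_toFinset]
        exact ⟨hz.1, hzl⟩
  -- I is independent
  have hIU : I ⊆ U := by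
    intro z hz
    rw [hI, mem_insert, mem_image] at hz
    rcases hz with rfl | ⟨i, hi, rfl⟩
    · exact hvU
    · have h1 := (hJlt i hi).1
      rw [hget _ h1]
      exact hlU _ (List.getElem_mem h1)
  have hv_succ : ∀ i ∈ J, ¬ G.Adj v (l.getD (i+1) v) := by
    intro i hi hadj
    obtain ⟨h1, h2⟩ := hJlt i hi
    rw [hget _ h1] at hadj
    rw [hget _ (by omega)] at h2
    obtain ⟨p, m, q, h3, h4, _⟩ := hsplit i (i+1) h1 (by omega)
    have hm : m = [] := by
      by_contra hm
      rcases h4 with h4 | h4
      · exact hm h4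
      · have hnd := hl.nodup
        rw [h3] at hnd
        have h5 : l[i+1] ∈ m := List.mem_of_head? h4
        rw [List.nodup_append] at hnd
        have h6 := (List.nodup_cons.mp hnd.2.1).2
        rw [List.nodup_append] at h6
        exact h6.2.2 _ h5 _ (by simp) rfl
    refine hno p m q _ _ h3 h2 ?_ (Or.inl hm)
    rw [hN, mem_filter, List.mem_toFinset]
    exact ⟨List.getElem_mem h1, v, hvK, hadj.symm⟩
  have hsucc : ∀ i ∈ J, ∀ j ∈ J, i < j → ¬ G.Adj (l.getD (i+1) v) (l.getD (j+1) v) := by
    intro i hi j hj hij hadj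
    obtain ⟨h1, h2⟩ := hJlt i hi
    obtain ⟨h3, h4⟩ := hJlt j hj
    rw [hget _ h1, hget _ h3] at hadj
    rw [hget _ (by omega)] at h2 h4
    obtain ⟨p, m, q, h5, h6, h7⟩ := hsplit i j (by omega) hij
    refine hno p m q _ _ h5 h2 h4 ?_
    rcases h6 with h6 | h6
    · exact Or.inl h6
    · exact Or.inr ⟨_, h6, _, h7 h3, hadj⟩
  have hIind : Ind G I := by
    intro z hz z' hz' hadj
    rw [hI, mem_insert, mem_image] at hz hz'
    rcases hz with rfl | ⟨i, hi, rfl⟩ <;> rcases hz' with rfl | ⟨j, hj, rfl⟩
    · exact G.loopless.irrefl _ hadj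
    · exact hv_succ j hj hadj
    · exact hv_succ i hi hadj.symm
    · rcases Nat.lt_trichotomy i j with h | h | h
      · exact hsucc i hi j hj h hadj
      · subst h
        exact G.loopless.irrefl _ hadj
      · exact hsucc j hj i hi h hadj.symm
  have := le_al hIU hIind
  omega

end Pool.Agent.Work.MP_a7fe73_co
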